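import Pool.Agent.W285.GM.ResD

/-!
Project GM, task GP-6 (helper285): the resolution.
-/

set_option autoImplicit false

namespace Pool.Agent.W285.GM

open Finset Filter
open Pool.Agent.H376R2.MR Pool.Agent.H970R2.X Pool.Agent.W78.GM

/-- candidates for auxiliary primes -/
lemma exists_cand (hloc : S_LOC) (z : ℕ) {S0 : ℝ} (hS0 : 0 ≤ S0) :
    ∃ (RR : Finset ℕ) (QQ : ℕ → Finset ℕ) (cl : GaussianInt → GaussianInt → ℕ),
      RR.card ≤ 4 * mz z ∧
      (∀ v u, cl v u ∈ RR) ∧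
      (∀ r ∈ RR, (∀ q ∈ QQ r, q.Prime ∧ q % 4 = 1 ∧ z ^ 2 < q) ∧
        S0 ≤ ∑ q ∈ QQ r, 1 / (q : ℝ) ∧ ∑ q ∈ QQ r, 1 / (q : ℝ) ≤ S0 + 1) ∧
      (∀ v u v' u' : GaussianInt, (mz z : GaussianInt) ∣ v - v' → (mz z : GaussianInt) ∣ u - u' →
        cl v u = cl v' u') ∧
      (∀ e : GaussianInt × GaussianInt, dt e.1 e.2 = 1 → ∀ q ∈ QQ (cl e.1 e.2),
        ∀ l : ℕ, l.Prime → l % 4 = 1 → l ≤ z →
        ¬ ((l : ℤ) ∣ nm e.1 + 2 * ip e.1 e.2 * q + (q : ℤ) ^ 2 * nm e.2 ∧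
          ((l : ℤ) ∣ nm e.1 * nm e.2 ∨
            (l : ℤ) ^ 2 ∣ nm e.1 + 2 * ip e.1 e.2 * q + (q : ℤ) ^ 2 * nm e.2))) := by
  classical
  obtain ⟨c, hc1, hc2, hc3⟩ := hloc z
  have hm := mz_pos z
  have hQQ : ∀ r : ℕ, ∃ Q : Finset ℕ, (r.Coprime (4 * mz z) ∧ r % 4 = 1) →
      ((∀ q ∈ Q, q.Prime ∧ q ≡ r [MOD 4 * mz z] ∧ z ^ 2 < q) ∧
        S0 ≤ ∑ q ∈ Q, 1 / (q : ℝ) ∧ ∑ q ∈ Q, 1 / (q : ℝ) ≤ S0 + 1) := by
    intro r
    by_cases hr : r.Coprime (4 * mz z) ∧ r % 4 = 1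
    · obtain ⟨Q, h1, h2, h3⟩ := exists_QQ (M := 4 * mz z) (by omega) hr.1 (z ^ 2) hS0
      exact ⟨Q, fun _ => ⟨h1, h2, h3⟩⟩
    · exact ⟨∅, fun h => absurd h hr⟩
  choose QQ hQQ using hQQ
  set cl : GaussianInt → GaussianInt → ℕ :=
    fun v u => c (nm v) (nm u) (ip v u) % (4 * mz z) with hcl
  have hcl4 : ∀ v u, cl v u % 4 = 1 := by
    intro v u
    rw [hcl]
    have h1 := (hc1 (nm v) (nm u) (ip v u)).1
    show c (nm v) (nm u) (ip v u) % (4 * mz z) % 4 = 1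
    rw [Nat.mod_mod_of_dvd _ (Dvd.intro _ rfl)]
    exact h1
  have hclc : ∀ v u, (cl v u).Coprime (4 * mz z) := by
    intro v u
    have h1 := hc1 (nm v) (nm u) (ip v u)
    have h2 : (c (nm v) (nm u) (ip v u)).Coprime (4 * mz z) := by
      apply Nat.Coprime.mul_right _ h1.2
      have h3 : Nat.Coprime (c (nm v) (nm u) (ip v u)) 2 := by
        rw [Nat.coprime_two_right, Nat.odd_iff]
        have := h1.1
        omega
      exact (Nat.Coprime.pow_right 2 h3 : Nat.Coprime _ (2 ^ 2))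
    have h3 : cl v u ≡ c (nm v) (nm u) (ip v u) [MOD 4 * mz z] := Nat.mod_modEq _ _
    unfold Nat.Coprime
    rw [h3.gcd_eq]
    exact h2
  refine ⟨(range (4 * mz z)).filter (fun r => r.Coprime (4 * mz z) ∧ r % 4 = 1), QQ, cl, ?_, ?_,
    ?_, ?_, ?_⟩
  · refine (Finset.card_filter_le _ _).trans ?_
    rw [Finset.card_range]
  · intro v u
    rw [mem_filter, mem_range]
    exact ⟨Nat.mod_lt _ (by omega), hclc v u, hcl4 v u⟩
  · intro r hr
    rw [mem_filter] at hr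
    obtain ⟨h1, h2, h3⟩ := hQQ r hr.2
    refine ⟨?_, h2, h3⟩
    intro q hq
    obtain ⟨h4, h5, h6⟩ := h1 q hq
    refine ⟨h4, ?_, h6⟩
    have h7 : q ≡ r [MOD 4] := h5.of_dvd (Dvd.intro _ rfl)
    have h8 : q % 4 = r % 4 := h7
    rw [h8]
    exact hr.2.2
  · intro v u v' u' hv hu
    show c (nm v) (nm u) (ip v u) % (4 * mz z) = c (nm v') (nm u') (ip v' u') % (4 * mz z)
    rw [hc2 (nm v) (nm u) (ip v u) (nm v') (nm u') (ip v' u') (nm_modEq hv) (nm_modEq hu)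
      (ip_modEq hv hu)]
  · intro e hdt q hq l hl hl4 hlz
    obtain ⟨h1, _, _⟩ := hQQ (cl e.1 e.2) ⟨hclc _ _, hcl4 _ _⟩
    have h2 : q ≡ c (nm e.1) (nm e.2) (ip e.1 e.2) [MOD 4 * mz z] :=
      (h1 q hq).2.1.trans (Nat.mod_modEq _ _)
    have h3 : (nm e.1 : ℤ) * nm e.2 = ip e.1 e.2 ^ 2 + 1 := by
      rw [ip_dt, hdt]; ring
    exact hc3 (nm e.1) (nm e.2) (ip e.1 e.2) h3 q h2 l hl hl4 hlz

/-- the choice of the constant `S₀` -/
lemma exists_S0 {C3 δ κ : ℝ} (hδ : 0 < δ) (hκ : 0 < κ) :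
    ∃ lK : ℝ, 0 ≤ lK ∧ ∀ z : ℕ,
      128 * C3 * mz z * Real.exp (-(lK + z * Real.log 16 + 1)) ≤ δ * κ := by
  set K : ℝ := max 1 (128 * C3 / (δ * κ)) with hK
  have hK1 : 1 ≤ K := le_max_left _ _
  have hK2 : 128 * C3 / (δ * κ) ≤ K := le_max_right _ _
  have hδκ : 0 < δ * κ := by positivity
  rw [div_le_iff₀ hδκ] at hK2
  refine ⟨Real.log K, Real.log_nonneg hK1, fun z => ?_⟩
  have hm : (mz z : ℝ) ≤ 16 ^ z := by exact_mod_cast mz_le z
  have hexp : Real.exp (-(Real.log K + z * Real.log 16 + 1)) ≤ 1 / (K * 16 ^ z) := by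
    have h1 : Real.exp (-(Real.log K + z * Real.log 16 + 1)) =
        Real.exp (-1) / (K * 16 ^ z) := by
      rw [neg_add, Real.exp_add, Real.exp_neg (Real.log K + _), Real.exp_add,
        Real.exp_log (by linarith), Real.exp_nat_mul, Real.exp_log (by norm_num)]
      field_simp
    rw [h1]
    have h2 : Real.exp (-1) ≤ 1 := by
      rw [Real.exp_le_one_iff]
      norm_num
    gcongr
  have hm0 : (0 : ℝ) ≤ mz z := by positivity
  calc 128 * C3 * mz z * Real.exp (-(Real.log K + z * Real.log 16 + 1))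
      ≤ (K * (δ * κ)) * 16 ^ z * (1 / (K * 16 ^ z)) := by
        gcongr
    _ = δ * κ := by
        have : K ≠ 0 := by linarith
        field_simp

/-- few pairs with a vertex without prime divisors from the candidate sets -/
lemma card_E2 {C3 δ κ X S0 : ℝ} (hC3 : 0 < C3) (hκ : 0 < κ) (hκ2 : C3 * κ ≤ δ / 8) (hX : 0 ≤ X)
    {m : ℕ} (hS : 128 * C3 * m * Real.exp (-S0) ≤ δ * κ)
    {RR : Finset ℕ} {QQ : ℕ → Finset ℕ} (hRR : RR.card ≤ 4 * m)
    (hQ : ∀ r ∈ RR, (∀ q ∈ QQ r, q.Prime) ∧ S0 ≤ ∑ q ∈ QQ r, 1 / (q : ℝ))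
    {V : ℕ → Finset GaussianInt}
    (hV : ∀ r ∈ RR, ((V r).card : ℝ) ≤ 4 * (∏ q ∈ QQ r, (1 - 1 / (q : ℝ))) * X)
    {W : Finset GaussianInt} (hW : W ⊆ RR.biUnion V) {N : ℝ}
    (hN : N ≤ C3 * (κ * X + (W.card : ℝ) / κ)) : N ≤ δ / 4 * X := by
  have h1 : ∀ r ∈ RR, ((V r).card : ℝ) ≤ 4 * Real.exp (-S0) * X := by
    intro r hr
    refine (hV r hr).trans ?_
    have h2 := prod_le_exp (QQ r) (hQ r hr).1
    have h3 : Real.exp (-∑ q ∈ QQ r, 1 / (q : ℝ)) ≤ Real.exp (-S0) := by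
      apply Real.exp_le_exp.2
      linarith [(hQ r hr).2]
    gcongr
    exact h2.trans h3
  have h2 : (W.card : ℝ) ≤ 16 * m * Real.exp (-S0) * X := by
    have h3 : (W.card : ℝ) ≤ ∑ r ∈ RR, ((V r).card : ℝ) := by
      have := (Finset.card_le_card hW).trans Finset.card_biUnion_le
      exact_mod_cast this
    have h4 : ∑ r ∈ RR, ((V r).card : ℝ) ≤ ∑ r ∈ RR, 4 * Real.exp (-S0) * X :=
      Finset.sum_le_sum h1
    rw [Finset.sum_const, nsmul_eq_mul] at h4
    have h5 : (RR.card : ℝ) ≤ 4 * m := by exact_mod_cast hRR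
    have h6 : 0 ≤ 4 * Real.exp (-S0) * X := by positivity
    nlinarith
  have h3 : C3 * ((W.card : ℝ) / κ) ≤ δ / 8 * X := by
    rw [mul_div_assoc', div_le_iff₀ hκ]
    calc C3 * (W.card : ℝ) ≤ C3 * (16 * m * Real.exp (-S0) * X) := by gcongr
      _ = (128 * C3 * m * Real.exp (-S0)) * (X / 8) := by ring
      _ ≤ (δ * κ) * (X / 8) := by gcongr
      _ = δ / 8 * X * κ := by ring
  have h4 : C3 * (κ * X) ≤ δ / 8 * X := by
    rw [← mul_assoc]
    gcongr
  rw [mul_add] at hN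
  linarith

lemma log_key {A : ℕ} {Q X : ℝ} (hQ : 1 ≤ Q) (hX : Q ≤ X) (hlX : (2 : ℝ) ^ A ≤ Real.log X) :
    Real.log (Q * X) ^ A ≤ Real.log X ^ (A + 1) := by
  have hX0 : 0 < X := by linarith
  have h1 : Real.log (Q * X) ≤ 2 * Real.log X := by
    rw [Real.log_mul (by linarith) hX0.ne']
    have := Real.log_le_log (by linarith) hX
    linarith
  have h2 : 0 ≤ Real.log (Q * X) := by
    apply Real.log_nonneg
    nlinarith
  have h3 : 0 ≤ Real.log X := Real.log_nonneg (by linarith)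
  calc Real.log (Q * X) ^ A ≤ (2 * Real.log X) ^ A := by gcongr
    _ = 2 ^ A * Real.log X ^ A := by rw [mul_pow]
    _ ≤ Real.log X * Real.log X ^ A := by gcongr
    _ = Real.log X ^ (A + 1) := by rw [pow_succ]; ring

/-- the resolution -/
theorem res_of (h1 : S_LOC) (h2 : S_EXC2) (h3 : S_LARGE) (h4 : S_SIFT) (h5 : S_SQ) (h6 : S_VE) :
    S_RES := by
  classical
  intro δ hδ
  obtain ⟨C1, hC1, hexc⟩ := h2
  obtain ⟨C2, _, hsq⟩ := h5
  obtain ⟨C3, hC3, hve⟩ := h6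
  obtain ⟨A, hlarge⟩ := h3
  obtain ⟨κ, hκ0, hκ1, hκ2⟩ : ∃ κ : ℝ, 0 < κ ∧ κ ≤ 1 ∧ C3 * κ ≤ δ / 8 := by
    refine ⟨min 1 (δ / (8 * C3)), lt_min one_pos (by positivity), min_le_left _ _, ?_⟩
    have : min 1 (δ / (8 * C3)) ≤ δ / (8 * C3) := min_le_right _ _
    calc C3 * min 1 (δ / (8 * C3)) ≤ C3 * (δ / (8 * C3)) := by gcongr
      _ = δ / 8 := by field_simp
  obtain ⟨lK, hlK, hS0⟩ := exists_S0 (C3 := C3) hδ hκ0
  obtain ⟨z, hz5, hz1, hz2⟩ := exists_z (C2 := C2) hC1 hδ hlK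
  have hl16 : 0 < Real.log 16 := Real.log_pos (by norm_num)
  obtain ⟨S0, hS0d⟩ : ∃ S0 : ℝ, S0 = lK + z * Real.log 16 + 1 := ⟨_, rfl⟩
  have hS0n : 0 ≤ S0 := by rw [hS0d]; positivity
  have hS0z := hS0 z
  rw [← hS0d] at hS0z hz2
  have hz1R : (5 : ℝ) ≤ z := by exact_mod_cast hz5
  have hz0 : (0 : ℝ) < z := by linarith
  have hlz : 0 < Real.log z := Real.log_pos (by linarith)
  obtain ⟨RR, QQ, cl, hRR, hclR, hQQ, hper, hlocal⟩ := exists_cand h1 z hS0n
  set QV : GaussianInt → GaussianInt → Finset ℕ := fun v u => QQ (cl v u) with hQVd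
  have hQV : ∀ v u : GaussianInt, ∀ q ∈ QV v u, q.Prime ∧ q % 4 = 1 ∧ z ^ 2 < q :=
    fun v u q hq => (hQQ _ (hclR v u)).1 q hq
  set UU : Finset ℕ := RR.biUnion QQ with hUUd
  have hUU : ∀ v u, QV v u ⊆ UU := by
    intro v u q hq
    rw [hUUd, mem_biUnion]
    exact ⟨cl v u, hclR v u, hq⟩
  obtain ⟨tF, eF, qF, F₁, F₂, hF⟩ := exists_data z QV
  set D : ℕ := (TT z).card * UU.card with hD
  set Qb : ℝ := 4 * (∑ q ∈ UU, (q : ℝ)) * z + 1 with hQb
  have hQb1 : 1 ≤ Qb := by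
    rw [hQb]
    have : 0 ≤ 4 * (∑ q ∈ UU, (q : ℝ)) * z := by positivity
    linarith
  -- eventual statements
  have ev1 : ∀ᶠ X : ℝ in atTop, ∀ t ∈ TT z,
      ((EX z QV (A + 1) X (B1 t.1 t.2.1 X) (B2 t.1 t.2.1 X) t.2.2).card : ℝ) ≤
        (C1 * (S0 + 1) / (z * Real.log z) * X) / (t.2.2 : ℝ) ^ 2 := by
    obtain ⟨X₀, hX₀⟩ := hexc z (S0 + 1) QV hz5 (by linarith)
      (fun v u v' u' hv hu => by rw [hQVd]; exact congrArg QQ (hper v u v' u' hv hu)) hQV
      (fun v u => (hQQ _ (hclR v u)).2.2) (A + 1)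
    filter_upwards [eventually_ge_atTop X₀, eventually_ge_atTop (z : ℝ),
      Real.tendsto_log_atTop.eventually_ge_atTop (z : ℝ)] with X hX hXz hlX
    intro t ht
    obtain ⟨hp, hn⟩ := TT_prop ht
    have hX0 : 0 < X := by linarith
    have hn1 : (1 : ℝ) ≤ nm t.2.1 := by exact_mod_cast nm_pos (TT_ne_zero ht)
    have hnz : (nm t.2.1 : ℝ) ≤ z := by
      rcases hn with hn | hn
      · rw [hn]; push_cast; linarith
      · rcases hp with hp | hp
        · rw [hn, hp]; push_cast; linarith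
        · rw [hn]; exact_mod_cast hp.2.2
    have hd1 : 1 ≤ X / nm t.2.1 := by
      rw [le_div_iff₀ (by linarith)]
      linarith
    have hd2 : X / nm t.2.1 ≤ X * Real.log X := by
      have : X / nm t.2.1 ≤ X := div_le_self hX0.le hn1
      nlinarith
    have hm1 : 1 ≤ X * nm t.2.1 := by nlinarith
    have hm2 : X * nm t.2.1 ≤ X * Real.log X := by
      gcongr
      linarith
    have hpr : X / nm t.2.1 * (X * nm t.2.1) = X ^ 2 := by
      have : (nm t.2.1 : ℝ) ≠ 0 := by linarith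
      field_simp
    have hpr2 : X * nm t.2.1 * (X / nm t.2.1) = X ^ 2 := by
      have : (nm t.2.1 : ℝ) ≠ 0 := by linarith
      field_simp
    have hb1 : 1 ≤ B1 t.1 t.2.1 X ∧ B1 t.1 t.2.1 X ≤ X * Real.log X := by
      unfold B1
      split_ifs
      · exact ⟨hm1, hm2⟩
      · exact ⟨hd1, hd2⟩
    have hb2 : 1 ≤ B2 t.1 t.2.1 X ∧ B2 t.1 t.2.1 X ≤ X * Real.log X := by
      unfold B2
      split_ifs
      · exact ⟨hd1, hd2⟩
      · exact ⟨hm1, hm2⟩
    have hb12 : B1 t.1 t.2.1 X * B2 t.1 t.2.1 X ≤ X ^ 2 := by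
      unfold B1 B2
      split_ifs
      · exact hpr2.le
      · exact hpr.le
    have := hX₀ X (B1 t.1 t.2.1 X) (B2 t.1 t.2.1 X) hX hb1.1 hb2.1 hb12 hb1.2 hb2.2 t.2.2 hp
    unfold EX
    exact this
  have ev2 : ∀ᶠ X : ℝ in atTop, (((dedge X).filter
      (fun e => ∃ l : ℕ, l.Prime ∧ z < l ∧ l ^ 2 ∣ NN e)).card : ℝ) ≤ C2 / z * X := by
    obtain ⟨X₀, hX₀⟩ := hsq z (by omega)
    filter_upwards [eventually_ge_atTop X₀] with X hX
    exact hX₀ X hX
  have ev3 : ∀ᶠ X : ℝ in atTop, ∀ r ∈ RR,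
      (((ball X).filter (fun z => ∀ q ∈ QQ r, ¬ gp q ∣ z)).card : ℝ) ≤
        4 * (∏ q ∈ QQ r, (1 - 1 / (q : ℝ))) * X := by
    rw [Filter.eventually_all_finset]
    intro r hr
    obtain ⟨X₀, hX₀⟩ := h4 (QQ r) (fun q hq => ⟨((hQQ r hr).1 q hq).1, ((hQQ r hr).1 q hq).2.1⟩)
    filter_upwards [eventually_ge_atTop X₀] with X hX
    exact hX₀ X hX
  have ev4 : ∀ᶠ X : ℝ in atTop, (((dedge (Qb * X)).filter
      (fun e => ∃ l : ℕ, l.Prime ∧ Real.log (Qb * X) ^ A < (l : ℝ) ∧ l ^ 2 ∣ NN e)).card : ℝ) ≤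
        δ / (16 * (D + 1) * Qb) * (Qb * X) := by
    obtain ⟨X₀, hX₀⟩ := hlarge (δ / (16 * (D + 1) * Qb)) (by positivity)
    filter_upwards [eventually_ge_atTop X₀, eventually_ge_atTop 0] with X hX hX0
    apply hX₀
    nlinarith
  obtain ⟨X₀, hX₀⟩ := eventually_atTop.1 (((((ev1.and ev2).and ev3).and ev4).and
    (eventually_ge_atTop Qb)).and (Real.tendsto_log_atTop.eventually_ge_atTop ((2 : ℝ) ^ A)))
  refine ⟨Qb, D, X₀, hQb1, fun X hX => ?_⟩
  obtain ⟨⟨⟨⟨⟨e1, e2⟩, e3⟩, e4⟩, e5⟩, e6⟩ := hX₀ X hX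
  have hX1 : 1 ≤ X := hQb1.trans e5
  have hX0 : 0 ≤ X := by linarith
  -- the exceptional sets
  obtain ⟨G1, hG1⟩ : ∃ G : Finset (GaussianInt × GaussianInt), G = (dedge X).filter
      (fun e => ∃ l : ℕ, l.Prime ∧ z < l ∧ l ^ 2 ∣ NN e) := ⟨_, rfl⟩
  obtain ⟨V, hV⟩ : ∃ V : ℕ → Finset GaussianInt, V = fun r =>
    (ball X).filter (fun z => ∀ q ∈ QQ r, ¬ gp q ∣ z) := ⟨_, rfl⟩
  obtain ⟨G2, hG2⟩ : ∃ G : Finset (GaussianInt × GaussianInt), G = (dedge X).filter
      (fun e => e.1 ∈ RR.biUnion V ∨ e.2 ∈ RR.biUnion V) := ⟨_, rfl⟩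
  obtain ⟨G3, hG3⟩ : ∃ G : Finset (GaussianInt × GaussianInt), G = E3 z QV (A + 1) X := ⟨_, rfl⟩
  obtain ⟨LG, hLG⟩ : ∃ G : Finset (GaussianInt × GaussianInt), G = (dedge (Qb * X)).filter
      (fun e => ∃ l : ℕ, l.Prime ∧ Real.log (Qb * X) ^ A < (l : ℝ) ∧ l ^ 2 ∣ NN e) := ⟨_, rfl⟩
  obtain ⟨U, hU⟩ : ∃ G : Finset (GaussianInt × GaussianInt), G = (dedge X).filter
      (fun e => e ∉ G1 ∧ e ∉ G2) := ⟨_, rfl⟩
  obtain ⟨G4, hG4⟩ : ∃ G : Finset (GaussianInt × GaussianInt), G = U.filter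
      (fun e => F₁ e ∈ LG) ∪ U.filter (fun e => F₂ e ∈ LG) := ⟨_, rfl⟩
  rw [← hG1] at e2
  rw [← hLG] at e4
  have e3' : ∀ r ∈ RR, ((V r).card : ℝ) ≤ 4 * (∏ q ∈ QQ r, (1 - 1 / (q : ℝ))) * X := by
    rw [hV]
    exact e3
  -- data on `U`
  have hdata : ∀ e ∈ U, Pd z QV e (tF e) (eF e) (qF e) (F₁ e) (F₂ e) := by
    intro e he
    apply hF
    rw [hU, mem_filter] at he
    obtain ⟨hed, h1', h2'⟩ := he
    have hdt := (mem_dedge.1 hed).1
    have hsq' : ¬ ∃ l : ℕ, l.Prime ∧ z < l ∧ l ^ 2 ∣ NN e := by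
      intro hcon
      apply h1'
      rw [hG1, mem_filter]
      exact ⟨hed, hcon⟩
    obtain ⟨t, ht, e', hT, hte⟩ := exists_type hdt hsq'
    have he1 : e.1 ∉ RR.biUnion V := by
      intro hcon
      apply h2'
      rw [hG2, mem_filter]
      exact ⟨hed, Or.inl hcon⟩
    have hex : ∃ q ∈ QQ (cl e'.1 e'.2), gp q ∣ e.1 := by
      by_contra hcon
      push Not at hcon
      apply he1
      rw [mem_biUnion]
      refine ⟨cl e'.1 e'.2, hclR _ _, ?_⟩
      rw [hV, mem_filter, mem_ball]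
      refine ⟨⟨?_, (mem_dedge.1 hed).2.1⟩, hcon⟩
      exact nm_pos (prim_ne_zero (prim_of_dt hdt).1)
    obtain ⟨q, hq, hqd⟩ := hex
    have hqp := hQV _ _ q hq
    have hnq : ¬ q ∣ nm t.2.1 := by
      intro hcon
      obtain ⟨hp, hn⟩ := TT_prop ht
      have hle : nm t.2.1 ≤ z := by
        rcases hn with hn | hn
        · omega
        · rcases hp with hp | hp
          · omega
          · omega
      have h0 : 0 < nm t.2.1 := nm_pos (TT_ne_zero ht)
      have := Nat.le_of_dvd h0 hcon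
      nlinarith [hqp.2.2]
    have hd' := gp_dvd_Tr hT hqp.1 hqp.2.1 hnq hqd
    have hρ := ne_zero_of_nm hqp.1 (gp_nm hqp.1 hqp.2.1)
    exact ⟨t, e', q, _, _, ht, hT, hte, hq, hd', Rs_of_dvd hρ hd'⟩
  have hmult := mult_key hUU hQV U hdata
  have hsize : ∀ e ∈ U, F₁ e ∈ dedge (Qb * X) ∧ F₂ e ∈ dedge (Qb * X) := by
    intro e he
    have hed : e ∈ dedge X := by
      rw [hU, mem_filter] at he
      exact he.1
    exact size_all hz5 hUU hQV hX0 hed (hdata e he)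
  -- the exceptional set is small
  have c1 : (G1.card : ℝ) ≤ δ / 8 * X := by
    refine e2.trans ?_
    gcongr
  have c2 : (G2.card : ℝ) ≤ δ / 4 * X := by
    refine card_E2 (W := RR.biUnion V ∩ pball X) (V := V) (S0 := S0) (QQ := QQ) hC3 hκ0 hκ2 hX0
      hS0z hRR ?_ e3' Finset.inter_subset_left ?_
    · intro r hr
      exact ⟨fun q hq => ((hQQ r hr).1 q hq).1, (hQQ r hr).2.1⟩
    · rw [hG2]
      exact hve κ X (RR.biUnion V) hκ0 hκ1 hX1
  have c3 : (G3.card : ℝ) ≤ δ / 8 * X := by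
    have hb : 0 ≤ C1 * (S0 + 1) / (z * Real.log z) * X := by positivity
    have := card_E3 hb e1
    rw [← hG3] at this
    refine this.trans ?_
    calc 6 * (C1 * (S0 + 1) / (z * Real.log z) * X)
        = 6 * (C1 * (S0 + 1) / (z * Real.log z)) * X := by ring
      _ ≤ δ / 8 * X := by gcongr
  have c4 : (G4.card : ℝ) ≤ δ / 8 * X := by
    have hA : (U.filter (fun e => F₁ e ∈ LG)).card ≤ D * LG.card := by
      apply Finset.card_le_mul_card_image_of_maps_to (f := F₁)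
      · intro e he
        rw [mem_filter] at he
        exact he.2
      · intro f _
        refine le_trans (Finset.card_le_card ?_) (hmult f).1
        intro e he
        rw [mem_filter, mem_filter] at he
        rw [mem_filter]
        exact ⟨he.1.1, he.2⟩
    have hB : (U.filter (fun e => F₂ e ∈ LG)).card ≤ D * LG.card := by
      apply Finset.card_le_mul_card_image_of_maps_to (f := F₂)
      · intro e he
        rw [mem_filter] at he
        exact he.2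
      · intro f _
        refine le_trans (Finset.card_le_card ?_) (hmult f).2
        intro e he
        rw [mem_filter, mem_filter] at he
        rw [mem_filter]
        exact ⟨he.1.1, he.2⟩
    have hC : G4.card ≤ 2 * D * LG.card := by
      have := Finset.card_union_le (U.filter (fun e => F₁ e ∈ LG)) (U.filter (fun e => F₂ e ∈ LG))
      rw [← hG4] at this
      calc G4.card ≤ _ := this
        _ ≤ D * LG.card + D * LG.card := Nat.add_le_add hA hB
        _ = 2 * D * LG.card := by ring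
    have hC' : (G4.card : ℝ) ≤ 2 * D * LG.card := by exact_mod_cast hC
    calc (G4.card : ℝ) ≤ 2 * D * LG.card := hC'
      _ ≤ 2 * (D + 1) * (δ / (16 * (D + 1) * Qb) * (Qb * X)) := by
          gcongr
          linarith
      _ = δ / 8 * X := by
          have h1' : Qb ≠ 0 := by linarith
          have h2' : ((D : ℝ) + 1) ≠ 0 := by positivity
          field_simp
          ring
  refine ⟨G1 ∪ G2 ∪ G3 ∪ G4, F₁, F₂, ?_, ?_, ?_⟩
  · have h7 : (G1 ∪ G2 ∪ G3 ∪ G4).card ≤ G1.card + G2.card + G3.card + G4.card := by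
      refine (Finset.card_union_le _ _).trans ?_
      refine Nat.add_le_add_right ?_ _
      refine (Finset.card_union_le _ _).trans ?_
      refine Nat.add_le_add_right ?_ _
      exact Finset.card_union_le _ _
    have h8 : ((G1 ∪ G2 ∪ G3 ∪ G4).card : ℝ) ≤ G1.card + G2.card + G3.card + G4.card := by
      exact_mod_cast h7
    have h9 : 0 ≤ δ * X := by positivity
    linarith
  · intro e hed heE
    simp only [mem_union, not_or] at heE
    obtain ⟨⟨⟨n1, n2⟩, n3⟩, n4⟩ := heE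
    have heU : e ∈ U := by
      rw [hU, mem_filter]
      exact ⟨hed, n1, n2⟩
    have hP := hdata e heU
    obtain ⟨ht, hT, hte, hq, hqd, hR⟩ := hP
    have hs := hsize e heU
    have hdt := (mem_dedge.1 hed).1
    have hdt' : dt (eF e).1 (eF e).2 = 1 := (Tr_dt hT).trans hdt
    have hNN := Tr_NN hT
    have hqp := hQV _ _ _ hq
    have hρ := ne_zero_of_nm hqp.1 (gp_nm hqp.1 hqp.2.1)
    have hlog := log_key hQb1 e5 e6
    have hx := local_key (L := Real.log X ^ (A + 1)) (z := z) hdt' hqp.1 hqp.2.1 hR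
      (fun l hl hl4 hlz => hlocal (eF e) hdt' (qF e) hq l hl hl4 hlz)
      (by
        intro l hl hl4 hzl hlL hlx hcon
        apply n3
        rw [hG3]
        unfold E3
        rw [mem_filter]
        refine ⟨hed, tF e, ht, eF e, hT, ?_⟩
        unfold EX
        rw [mem_filter]
        refine ⟨Tr_redge (TT_ne_zero ht) hT hed, ?_, qF e, hq, hqd, l, hl, hl4, hzl, hlL, ?_, ?_⟩
        · rcases hte with ⟨h1', _⟩ | ⟨_, h2', h3'⟩
          · rw [h1']
            exact ⟨one_dvd _, one_dvd _⟩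
          · exact ⟨h2', h3'⟩
        · rw [Rs_xx hρ hR]
          exact hlx
        · rw [Rs_xx hρ hR]
          exact hcon)
      (by
        intro l hl hL
        have n4' : F₁ e ∉ LG ∧ F₂ e ∉ LG := by
          constructor
          · intro hcon
            apply n4
            rw [hG4, mem_union]
            left
            rw [mem_filter]
            exact ⟨heU, hcon⟩
          · intro hcon
            apply n4
            rw [hG4, mem_union]
            right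
            rw [mem_filter]
            exact ⟨heU, hcon⟩
        constructor
        · intro hcon
          apply n4'.1
          rw [hLG, mem_filter]
          exact ⟨hs.1, l, hl, lt_of_le_of_lt hlog hL, hcon⟩
        · intro hcon
          apply n4'.2
          rw [hLG, mem_filter]
          exact ⟨hs.2, l, hl, lt_of_le_of_lt hlog hL, hcon⟩)
    have hqne : qF e ≠ (tF e).2.2 := by
      intro hcon
      obtain ⟨hp, _⟩ := TT_prop ht
      rcases hp with hp | hp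
      · rw [hp] at hcon
        have := hqp.1.one_lt
        omega
      · have h1' := hp.2.2
        rw [← hcon] at h1'
        nlinarith [hqp.2.2]
    rw [← hNN]
    rw [← hNN] at hte
    have hexc' := exc_key hdt' hqp.1 hqp.2.1 hqne hR hx hte
    exact ⟨hs.1, hs.2, lam_key hdt' hR, hexc'.1, hexc'.2⟩
  · intro f
    constructor
    · refine le_trans (Finset.card_le_card ?_) (hmult f).1
      intro e he
      rw [mem_filter] at he ⊢
      obtain ⟨hed, hnE, hf⟩ := he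
      simp only [mem_union, not_or] at hnE
      refine ⟨?_, hf⟩
      rw [hU, mem_filter]
      exact ⟨hed, hnE.1.1.1, hnE.1.1.2⟩
    · refine le_trans (Finset.card_le_card ?_) (hmult f).2
      intro e he
      rw [mem_filter] at he ⊢
      obtain ⟨hed, hnE, hf⟩ := he
      simp only [mem_union, not_or] at hnE
      refine ⟨?_, hf⟩
      rw [hU, mem_filter]
      exact ⟨hed, hnE.1.1.1, hnE.1.1.2⟩

end Pool.Agent.W285.GM
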