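import Pool.Agent.W78.GM.Defs2

/-!
Project GM, task GP-6 (helper285): algebra of the resolution.
-/

set_option autoImplicit false

namespace Pool.Agent.W285.GM

open Finset Filter
open Pool.Agent.H376R2.MR Pool.Agent.H970R2.X Pool.Agent.W78.GM
open ArithmeticFunction (cardFactors cardDistinctFactors)

/-! ### the excess -/

lemma om_le (m : ℕ) : cardDistinctFactors m ≤ cardFactors m := by
  rw [ArithmeticFunction.cardDistinctFactors_apply, ArithmeticFunction.cardFactors_apply]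
  exact (List.dedup_sublist _).length_le

lemma exc_add (m : ℕ) : exc m + cardDistinctFactors m = cardFactors m := by
  unfold exc
  have := om_le m
  omega

lemma om_mul_le {m k : ℕ} (hm : m ≠ 0) (hk : k ≠ 0) :
    cardDistinctFactors (m * k) ≤ cardDistinctFactors m + cardDistinctFactors k := by
  have h : ∀ n : ℕ, cardDistinctFactors n = n.primeFactors.card := by
    intro n
    rw [ArithmeticFunction.cardDistinctFactors_apply]
    rfl
  rw [h, h, h, Nat.primeFactors_mul hm hk]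
  exact Finset.card_union_le _ _

lemma exc_mono {m n : ℕ} (h : m ∣ n) (hn : n ≠ 0) : exc m ≤ exc n := by
  obtain ⟨k, rfl⟩ := h
  have hm : m ≠ 0 := left_ne_zero_of_mul hn
  have hk : k ≠ 0 := right_ne_zero_of_mul hn
  have h1 := exc_add m
  have h2 := exc_add (m * k)
  have h3 := om_mul_le hm hk
  have h4 := om_le k
  rw [ArithmeticFunction.cardFactors_mul hm hk] at h2
  omega

lemma exc_prime_mul {p m : ℕ} (hp : p.Prime) (hm : m ≠ 0) (h : p ∣ m) :
    exc (p * m) = exc m + 1 := by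
  have h1 := exc_add m
  have h2 := exc_add (p * m)
  have h3 : cardDistinctFactors (p * m) = cardDistinctFactors m := by
    have h : ∀ n : ℕ, cardDistinctFactors n = n.primeFactors.card := by
      intro n
      rw [ArithmeticFunction.cardDistinctFactors_apply]
      rfl
    rw [h, h, Nat.primeFactors_mul hp.ne_zero hm, hp.primeFactors,
      Finset.union_eq_right.2]
    rw [Finset.singleton_subset_iff, Nat.mem_primeFactors]
    exact ⟨hp, by assumption, hm⟩
  rw [ArithmeticFunction.cardFactors_mul hp.ne_zero hm,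
    ArithmeticFunction.cardFactors_apply_prime hp] at h2
  omega

lemma exc_mul_sqf {m k : ℕ} (hm : m ≠ 0) (hk : Squarefree k) (h : m.Coprime k) :
    exc (m * k) = exc m := by
  have h1 := exc_add m
  have h2 := exc_add (m * k)
  have hk0 : k ≠ 0 := hk.ne_zero
  rw [ArithmeticFunction.cardFactors_mul hm hk0,
    ArithmeticFunction.cardDistinctFactors_mul h] at h2
  have h3 := (ArithmeticFunction.cardDistinctFactors_eq_cardFactors_iff_squarefree hk0).2 hk
  omega

lemma exc_eq_zero {m : ℕ} (hm : m ≠ 0) : exc m = 0 ↔ Squarefree m := by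
  rw [← ArithmeticFunction.cardDistinctFactors_eq_cardFactors_iff_squarefree hm]
  have h1 := exc_add m
  omega

/-! ### elementary facts -/

lemma dt_eq (v u : GaussianInt) : dt v u = (star v * u).im := by
  rw [star_mul_eq]

lemma ip_eq (v u : GaussianInt) : ip v u = (star v * u).re := by
  rw [star_mul_eq]

lemma prim_of_dt {v u : GaussianInt} (h : dt v u = 1) : prim v ∧ prim u := by
  have h' : v.re * u.im - v.im * u.re = 1 := h
  constructor
  · unfold prim
    have h1 : ((Int.gcd v.re v.im : ℕ) : ℤ) ∣ v.re * u.im - v.im * u.re :=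
      dvd_sub (Dvd.dvd.mul_right (Int.gcd_dvd_left _ _) _)
        (Dvd.dvd.mul_right (Int.gcd_dvd_right _ _) _)
    rw [h'] at h1
    exact Nat.dvd_one.1 (by exact_mod_cast h1)
  · unfold prim
    have h1 : ((Int.gcd u.re u.im : ℕ) : ℤ) ∣ v.re * u.im - v.im * u.re :=
      dvd_sub (Dvd.dvd.mul_left (Int.gcd_dvd_right _ _) _)
        (Dvd.dvd.mul_left (Int.gcd_dvd_left _ _) _)
    rw [h'] at h1
    exact Nat.dvd_one.1 (by exact_mod_cast h1)

lemma NN_eq {e : GaussianInt × GaussianInt} (h : dt e.1 e.2 = 1) :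
    (NN e : ℤ) = ip e.1 e.2 ^ 2 + 1 := by
  unfold NN
  push_cast
  rw [ip_dt, h]
  ring

lemma NN_star (e : GaussianInt × GaussianInt) : NN e = nm (star e.1 * e.2) := by
  unfold NN
  rw [nm_mul, nm_star]

lemma not_four_dvd_NN {e : GaussianInt × GaussianInt} (h : dt e.1 e.2 = 1) : ¬ 4 ∣ NN e := by
  intro h4
  have h1 : (4 : ℤ) ∣ ip e.1 e.2 ^ 2 + 1 := by
    rw [← NN_eq h]
    exact_mod_cast h4
  obtain ⟨c, hc⟩ := h1
  rcases Int.even_or_odd' (ip e.1 e.2) with ⟨m, hm | hm⟩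
  · rw [hm] at hc
    have : 4 * (m * m) + 1 = 4 * c := by rw [← hc]; ring
    omega
  · rw [hm] at hc
    have : 4 * (m * m) + 4 * m + 2 = 4 * c := by rw [← hc]; ring
    omega

lemma mem_redge {X₁ X₂ : ℝ} {e : GaussianInt × GaussianInt} :
    e ∈ redge X₁ X₂ ↔ dt e.1 e.2 = 1 ∧ (nm e.1 : ℝ) ≤ X₁ ∧ (nm e.2 : ℝ) ≤ X₂ := by
  unfold redge
  rw [mem_filter, mem_product, mem_pball, mem_pball]
  constructor
  · rintro ⟨⟨⟨_, h1⟩, _, h2⟩, h3⟩
    exact ⟨h3, h1, h2⟩
  · rintro ⟨h3, h1, h2⟩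
    exact ⟨⟨⟨(prim_of_dt h3).1, h1⟩, (prim_of_dt h3).2, h2⟩, h3⟩

lemma mem_dedge {X : ℝ} {e : GaussianInt × GaussianInt} :
    e ∈ dedge X ↔ dt e.1 e.2 = 1 ∧ (nm e.1 : ℝ) ≤ X ∧ (nm e.2 : ℝ) ≤ X := by
  have : dedge X = redge X X := by
    unfold dedge redge
    rfl
  rw [this, mem_redge]

lemma NN_ne_zero {e : GaussianInt × GaussianInt} (h : dt e.1 e.2 = 1) : NN e ≠ 0 := by
  intro h0
  have := NN_eq h
  rw [h0] at this
  have h2 := sq_nonneg (ip e.1 e.2)
  push_cast at this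
  linarith

/-! ### the first transformation -/

/-- moving a prime `ϖ` from one component to the other -/
def Tr (k : Bool) (ϖ : GaussianInt) (e e' : GaussianInt × GaussianInt) : Prop :=
  if k then e'.1 = star ϖ * e.1 ∧ e.2 = ϖ * e'.2 else e.1 = ϖ * e'.1 ∧ e'.2 = star ϖ * e.2

lemma Tr_star {k : Bool} {ϖ : GaussianInt} {e e' : GaussianInt × GaussianInt}
    (h : Tr k ϖ e e') : star e'.1 * e'.2 = star e.1 * e.2 := by
  unfold Tr at h
  cases k
  · simp only [Bool.false_eq_true, if_false] at h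
    rw [h.1, h.2, star_mul]
    ring
  · simp only [if_true] at h
    rw [h.1, h.2, star_mul, star_star]
    ring

lemma Tr_inj {k : Bool} {ϖ : GaussianInt} (hϖ : ϖ ≠ 0) {e f e' : GaussianInt × GaussianInt}
    (h : Tr k ϖ e e') (h' : Tr k ϖ f e') : e = f := by
  have hs : star ϖ ≠ 0 := star_ne_zero.2 hϖ
  unfold Tr at h h'
  cases k
  · simp only [Bool.false_eq_true, if_false] at h h'
    refine Prod.ext (h.1.trans h'.1.symm) ?_
    exact mul_left_cancel₀ hs (h.2.symm.trans h'.2)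
  · simp only [if_true] at h h'
    refine Prod.ext ?_ (h.2.trans h'.2.symm)
    exact mul_left_cancel₀ hs (h.1.symm.trans h'.1)

lemma Tr_det {k : Bool} {ϖ : GaussianInt} (hϖ : ϖ ≠ 0) {e e' f' : GaussianInt × GaussianInt}
    (h : Tr k ϖ e e') (h' : Tr k ϖ e f') : e' = f' := by
  unfold Tr at h h'
  cases k
  · simp only [Bool.false_eq_true, if_false] at h h'
    refine Prod.ext (mul_left_cancel₀ hϖ (h.1.symm.trans h'.1)) (h.2.trans h'.2.symm)
  · simp only [if_true] at h h'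
    refine Prod.ext (h.1.trans h'.1.symm) (mul_left_cancel₀ hϖ (h.2.symm.trans h'.2))

lemma Tr_dt {k : Bool} {ϖ : GaussianInt} {e e' : GaussianInt × GaussianInt}
    (h : Tr k ϖ e e') : dt e'.1 e'.2 = dt e.1 e.2 := by
  rw [dt_eq, dt_eq, Tr_star h]

lemma Tr_NN {k : Bool} {ϖ : GaussianInt} {e e' : GaussianInt × GaussianInt}
    (h : Tr k ϖ e e') : NN e' = NN e := by
  rw [NN_star, NN_star, Tr_star h]

/-- bounds of the norms for the transformed pair -/
noncomputable def B1 (k : Bool) (ϖ : GaussianInt) (X : ℝ) : ℝ :=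
  if k then X * nm ϖ else X / nm ϖ

/-- bounds of the norms for the transformed pair -/
noncomputable def B2 (k : Bool) (ϖ : GaussianInt) (X : ℝ) : ℝ :=
  if k then X / nm ϖ else X * nm ϖ

lemma Tr_redge {k : Bool} {ϖ : GaussianInt} (hϖ : ϖ ≠ 0) {e e' : GaussianInt × GaussianInt}
    {X : ℝ} (h : Tr k ϖ e e') (he : e ∈ dedge X) : e' ∈ redge (B1 k ϖ X) (B2 k ϖ X) := by
  rw [mem_dedge] at he
  rw [mem_redge]
  refine ⟨(Tr_dt h).trans he.1, ?_, ?_⟩
  · have hp := nm_posR hϖ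
    unfold Tr at h
    unfold B1
    cases k
    · simp only [Bool.false_eq_true, if_false] at h ⊢
      rw [le_div_iff₀ hp]
      have h1 := he.2.1
      rw [h.1, nm_mul] at h1
      push_cast at h1
      linarith
    · simp only [if_true] at h ⊢
      rw [h.1, nm_mul, nm_star]
      push_cast
      have := mul_le_mul_of_nonneg_left he.2.1 hp.le
      linarith
  · have hp := nm_posR hϖ
    unfold Tr at h
    unfold B2
    cases k
    · simp only [Bool.false_eq_true, if_false] at h ⊢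
      rw [h.2, nm_mul, nm_star]
      push_cast
      have := mul_le_mul_of_nonneg_left he.2.2 hp.le
      linarith
    · simp only [if_true] at h ⊢
      rw [le_div_iff₀ hp]
      have h1 := he.2.2
      rw [h.2, nm_mul] at h1
      push_cast at h1
      linarith

/-! ### the resolution step -/

/-- the resolution step -/
def Rs (ρ : GaussianInt) (e f₁ f₂ : GaussianInt × GaussianInt) : Prop :=
  e.1 = ρ * f₁.1 ∧ f₁.2 = f₁.1 + star ρ * e.2 ∧ f₂.1 = f₁.2 ∧ f₂.2 = star ρ * e.2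

lemma Rs_of_dvd {ρ : GaussianInt} (hρ : ρ ≠ 0) {e : GaussianInt × GaussianInt} (h : ρ ∣ e.1) :
    Rs ρ e (e.1 / ρ, xx ρ e) (xx ρ e, star ρ * e.2) := by
  refine ⟨?_, rfl, rfl, rfl⟩
  exact (EuclideanDomain.mul_div_cancel' hρ h).symm

lemma Rs_xx {ρ : GaussianInt} (hρ : ρ ≠ 0) {e f₁ f₂ : GaussianInt × GaussianInt}
    (h : Rs ρ e f₁ f₂) : xx ρ e = f₁.2 := by
  have h1 : e.1 / ρ = f₁.1 := by
    rw [h.1]
    exact mul_div_cancel_left₀ _ hρ
  unfold xx
  rw [h1, h.2.1]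

lemma Rs_inj1 {ρ : GaussianInt} (hρ : ρ ≠ 0) {e e' f₁ f₂ f₂' : GaussianInt × GaussianInt}
    (h : Rs ρ e f₁ f₂) (h' : Rs ρ e' f₁ f₂') : e = e' := by
  have hs : star ρ ≠ 0 := star_ne_zero.2 hρ
  refine Prod.ext (h.1.trans h'.1.symm) ?_
  exact mul_left_cancel₀ hs (add_left_cancel (h.2.1.symm.trans h'.2.1))

lemma Rs_inj2 {ρ : GaussianInt} (hρ : ρ ≠ 0) {e e' f₁ f₁' f₂ : GaussianInt × GaussianInt}
    (h : Rs ρ e f₁ f₂) (h' : Rs ρ e' f₁' f₂) : e = e' := by
  have hs : star ρ ≠ 0 := star_ne_zero.2 hρ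
  have h2 : star ρ * e.2 = star ρ * e'.2 := h.2.2.2.symm.trans h'.2.2.2
  have h3 : f₁.2 = f₁'.2 := h.2.2.1.symm.trans h'.2.2.1
  rw [h.2.1, h'.2.1, h2] at h3
  have h4 : f₁.1 = f₁'.1 := add_right_cancel h3
  refine Prod.ext ?_ (mul_left_cancel₀ hs h2)
  rw [h.1, h'.1, h4]

lemma Rs_dt1 {ρ : GaussianInt} {e f₁ f₂ : GaussianInt × GaussianInt} (h : Rs ρ e f₁ f₂) :
    dt f₁.1 f₁.2 = dt e.1 e.2 := by
  rw [dt_eq, dt_eq, h.2.1, mul_add, star_mul_self', h.1, star_mul]
  have : star f₁.1 * (star ρ * e.2) = star f₁.1 * star ρ * e.2 := by ring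
  rw [this]
  simp

lemma Rs_dt2 {ρ : GaussianInt} {e f₁ f₂ : GaussianInt × GaussianInt} (h : Rs ρ e f₁ f₂) :
    dt f₂.1 f₂.2 = dt e.1 e.2 := by
  rw [dt_eq, dt_eq, h.2.2.1, h.2.1, h.2.2.2, star_add, add_mul, star_mul_self', h.1, star_mul]
  have : star f₁.1 * (star ρ * e.2) = star f₁.1 * star ρ * e.2 := by ring
  rw [this]
  simp

/-- `q nm x = A + 2 n q + q^2 B` -/
lemma Rs_nm {ρ : GaussianInt} {q : ℕ} (hq : nm ρ = q) {e f₁ f₂ : GaussianInt × GaussianInt}
    (h : Rs ρ e f₁ f₂) :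
    (q : ℤ) * nm f₁.2 = nm e.1 + 2 * ip e.1 e.2 * q + (q : ℤ) ^ 2 * nm e.2 := by
  have h1 : ρ * f₁.2 = e.1 + (q : GaussianInt) * e.2 := by
    rw [h.2.1, mul_add, ← h.1, ← mul_assoc, mul_star_self', hq]
  have h2 : (q : ℤ) * nm f₁.2 = nm (e.1 + (q : GaussianInt) * e.2) := by
    rw [← h1, nm_mul, hq]
    push_cast
    ring
  rw [h2, nm_add, nm_mul, nm_natCast]
  have h3 : ip e.1 ((q : GaussianInt) * e.2) = q * ip e.1 e.2 := by
    unfold ip
    simp
    ring
  rw [h3]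
  push_cast
  ring

lemma Rs_NN {ρ : GaussianInt} {e f₁ f₂ : GaussianInt × GaussianInt} (h : Rs ρ e f₁ f₂) :
    NN f₁ * NN f₂ = NN e * nm f₁.2 ^ 2 := by
  unfold NN
  rw [h.2.2.1, h.2.2.2, h.1, nm_mul, nm_mul, nm_star]
  ring

end Pool.Agent.W285.GM
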