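import Pool.Agent.W285.GM.ResA

/-!
Project GM, task GP-6 (helper285): the types, local analysis and the excess.
-/

set_option autoImplicit false

namespace Pool.Agent.W285.GM

open Finset Filter
open Pool.Agent.H376R2.MR Pool.Agent.H970R2.X Pool.Agent.W78.GM

/-- the primes `≤ z` which are `1 mod 4` -/
def PP (z : ℕ) : Finset ℕ := (range (z + 1)).filter (fun p => p.Prime ∧ p % 4 = 1)

lemma mem_PP {z p : ℕ} : p ∈ PP z ↔ p.Prime ∧ p % 4 = 1 ∧ p ≤ z := by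
  unfold PP
  rw [mem_filter, mem_range, Nat.lt_succ_iff]
  tauto

/-- the types over a prime -/
noncomputable def T5 (p : ℕ) : Finset (Bool × GaussianInt × ℕ) :=
  {(false, 1, p), (false, gp p, p), (false, star (gp p), p), (true, gp p, p),
    (true, star (gp p), p)}

/-- the types -/
noncomputable def TT (z : ℕ) : Finset (Bool × GaussianInt × ℕ) :=
  {(false, 1, 1)} ∪ (PP z).biUnion T5

lemma TT_prop {z : ℕ} {t : Bool × GaussianInt × ℕ} (ht : t ∈ TT z) :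
    (t.2.2 = 1 ∨ (t.2.2.Prime ∧ t.2.2 % 4 = 1 ∧ t.2.2 ≤ z)) ∧
      (nm t.2.1 = 1 ∨ nm t.2.1 = t.2.2) := by
  unfold TT at ht
  rw [mem_union, mem_singleton, mem_biUnion] at ht
  rcases ht with rfl | ⟨p, hp, ht⟩
  · simp
  · rw [mem_PP] at hp
    unfold T5 at ht
    simp only [mem_insert, mem_singleton] at ht
    have h1 := gp_nm hp.1 hp.2.1
    have h2 : nm (star (gp p)) = p := by rw [nm_star, h1]
    rcases ht with rfl | rfl | rfl | rfl | rfl
    · exact ⟨Or.inr hp, Or.inl nm_one⟩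
    · exact ⟨Or.inr hp, Or.inr h1⟩
    · exact ⟨Or.inr hp, Or.inr h2⟩
    · exact ⟨Or.inr hp, Or.inr h1⟩
    · exact ⟨Or.inr hp, Or.inr h2⟩

lemma TT_one (z : ℕ) : ((false, 1, 1) : Bool × GaussianInt × ℕ) ∈ TT z := by
  unfold TT
  simp

lemma TT_mem {z p : ℕ} (hp : p ∈ PP z) {t : Bool × GaussianInt × ℕ} (h : t ∈ T5 p) :
    t ∈ TT z := by
  unfold TT
  rw [mem_union, mem_biUnion]
  exact Or.inr ⟨p, hp, h⟩

lemma T5_of {p : ℕ} {k : Bool} {ϖ : GaussianInt} (h : ϖ = gp p ∨ ϖ = star (gp p)) :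
    (k, ϖ, p) ∈ T5 p := by
  unfold T5
  rcases h with rfl | rfl <;> cases k <;> simp

/-- every pair has a type -/
lemma exists_type {z : ℕ} {e : GaussianInt × GaussianInt} (hdt : dt e.1 e.2 = 1)
    (hsq : ¬ ∃ l : ℕ, l.Prime ∧ z < l ∧ l ^ 2 ∣ NN e) :
    ∃ t ∈ TT z, ∃ e', Tr t.1 t.2.1 e e' ∧
      ((t.2.2 = 1 ∧ exc (NN e) = 0) ∨
        (t.2.2.Prime ∧ t.2.2 ∣ nm e'.1 ∧ t.2.2 ∣ nm e'.2)) := by
  have hN := NN_ne_zero hdt
  have hprim := prim_of_dt hdt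
  by_cases hex : exc (NN e) = 0
  · refine ⟨(false, 1, 1), TT_one z, e, ?_, Or.inl ⟨rfl, hex⟩⟩
    unfold Tr
    simp
  · rw [exc_eq_zero hN, Nat.squarefree_iff_prime_squarefree] at hex
    push Not at hex
    obtain ⟨p, hp, hpp⟩ := hex
    rw [← sq] at hpp
    have hpz : p ≤ z := by
      by_contra hcon
      exact hsq ⟨p, hp, by omega, hpp⟩
    have hpN : p ∣ nm e.1 * nm e.2 := (dvd_pow_self p two_ne_zero).trans hpp
    have hp4 : p % 4 = 1 := by
      have h2 : p = 2 ∨ p % 4 = 1 := by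
        rcases (Nat.Prime.dvd_mul hp).1 hpN with h | h
        · exact prime_dvd_nm_prim hp hprim.1 h
        · exact prime_dvd_nm_prim hp hprim.2 h
      rcases h2 with rfl | h2
      · exact absurd (by simpa using hpp) (not_four_dvd_NN hdt)
      · exact h2
    have hpP : p ∈ PP z := mem_PP.2 ⟨hp, hp4, hpz⟩
    have hgp := gp_nm hp hp4
    by_cases h1 : p ∣ nm e.1
    · by_cases h2 : p ∣ nm e.2
      · refine ⟨(false, 1, p), TT_mem hpP (by unfold T5; simp), e, ?_, Or.inr ⟨hp, h1, h2⟩⟩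
        unfold Tr
        simp
      · have hsq1 : p ^ 2 ∣ nm e.1 := by
          have hc : Nat.Coprime (p ^ 2) (nm e.2) :=
            Nat.Coprime.pow_left 2 ((Nat.Prime.coprime_iff_not_dvd hp).2 h2)
          exact hc.dvd_of_dvd_mul_right hpp
        have key : ∀ ϖ : GaussianInt, (ϖ = gp p ∨ ϖ = star (gp p)) → ϖ ∣ e.1 →
            ∃ t ∈ TT z, ∃ e', Tr t.1 t.2.1 e e' ∧
              ((t.2.2 = 1 ∧ exc (NN e) = 0) ∨
                (t.2.2.Prime ∧ t.2.2 ∣ nm e'.1 ∧ t.2.2 ∣ nm e'.2)) := by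
          intro ϖ hϖ hd
          have hnϖ : nm ϖ = p := by
            rcases hϖ with rfl | rfl
            · exact hgp
            · rw [nm_star, hgp]
          obtain ⟨a, ha⟩ := hd
          refine ⟨(false, ϖ, p), TT_mem hpP (T5_of hϖ), (a, star ϖ * e.2), ?_,
            Or.inr ⟨hp, ?_, ?_⟩⟩
          · unfold Tr
            simp [ha]
          · rw [ha, nm_mul, hnϖ, sq] at hsq1
            exact Nat.dvd_of_mul_dvd_mul_left hp.pos hsq1
          · change p ∣ nm (star ϖ * e.2)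
            rw [nm_mul, nm_star, hnϖ]
            exact Dvd.intro _ rfl
        rcases dvd_of_dvd_nm hp hgp h1 with hd | hd
        · exact key _ (Or.inl rfl) hd
        · exact key _ (Or.inr rfl) hd
    · have h2 : p ∣ nm e.2 := by
        rcases (Nat.Prime.dvd_mul hp).1 hpN with h | h
        · exact absurd h h1
        · exact h
      have hsq2 : p ^ 2 ∣ nm e.2 := by
        have hc : Nat.Coprime (p ^ 2) (nm e.1) :=
          Nat.Coprime.pow_left 2 ((Nat.Prime.coprime_iff_not_dvd hp).2 h1)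
        exact hc.dvd_of_dvd_mul_left hpp
      have key : ∀ ϖ : GaussianInt, (ϖ = gp p ∨ ϖ = star (gp p)) → ϖ ∣ e.2 →
          ∃ t ∈ TT z, ∃ e', Tr t.1 t.2.1 e e' ∧
            ((t.2.2 = 1 ∧ exc (NN e) = 0) ∨
              (t.2.2.Prime ∧ t.2.2 ∣ nm e'.1 ∧ t.2.2 ∣ nm e'.2)) := by
        intro ϖ hϖ hd
        have hnϖ : nm ϖ = p := by
          rcases hϖ with rfl | rfl
          · exact hgp
          · rw [nm_star, hgp]
        obtain ⟨a, ha⟩ := hd
        refine ⟨(true, ϖ, p), TT_mem hpP (T5_of hϖ), (star ϖ * e.1, a), ?_,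
          Or.inr ⟨hp, ?_, ?_⟩⟩
        · unfold Tr
          simp [ha]
        · change p ∣ nm (star ϖ * e.1)
          rw [nm_mul, nm_star, hnϖ]
          exact Dvd.intro _ rfl
        · rw [ha, nm_mul, hnϖ, sq] at hsq2
          exact Nat.dvd_of_mul_dvd_mul_left hp.pos hsq2
      rcases dvd_of_dvd_nm hp hgp h2 with hd | hd
      · exact key _ (Or.inl rfl) hd
      · exact key _ (Or.inr rfl) hd

/-- a prime `gp q`, `q` different from the norm of `ϖ`, stays a divisor of the first component -/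
lemma gp_dvd_Tr {k : Bool} {ϖ : GaussianInt} {e e' : GaussianInt × GaussianInt}
    (h : Tr k ϖ e e') {q : ℕ} (hq : q.Prime) (hq4 : q % 4 = 1) (hne : ¬ q ∣ nm ϖ)
    (hd : gp q ∣ e.1) : gp q ∣ e'.1 := by
  unfold Tr at h
  cases k
  · simp only [Bool.false_eq_true, if_false] at h
    rw [h.1] at hd
    rcases (prime_of_nm hq (gp_nm hq hq4)).dvd_or_dvd hd with h1 | h1
    · exfalso
      apply hne
      have := nm_dvd h1
      rwa [gp_nm hq hq4] at this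
    · exact h1
  · simp only [if_true] at h
    rw [h.1]
    exact hd.trans (Dvd.intro_left _ rfl)

/-- local analysis -/
lemma local_key {z q : ℕ} {L : ℝ} {e f₁ f₂ : GaussianInt × GaussianInt}
    (hdt : dt e.1 e.2 = 1) (hq : q.Prime) (hq4 : q % 4 = 1) (h : Rs (gp q) e f₁ f₂)
    (hloc : ∀ l : ℕ, l.Prime → l % 4 = 1 → l ≤ z →
      ¬ ((l : ℤ) ∣ nm e.1 + 2 * ip e.1 e.2 * q + (q : ℤ) ^ 2 * nm e.2 ∧
        ((l : ℤ) ∣ nm e.1 * nm e.2 ∨
          (l : ℤ) ^ 2 ∣ nm e.1 + 2 * ip e.1 e.2 * q + (q : ℤ) ^ 2 * nm e.2)))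
    (hmid : ∀ l : ℕ, l.Prime → l % 4 = 1 → z < l → (l : ℝ) ≤ L → l ∣ nm f₁.2 →
      ¬ (l ∣ NN e ∨ l ^ 2 ∣ nm f₁.2))
    (hbig : ∀ l : ℕ, l.Prime → L < l → ¬ l ^ 2 ∣ NN f₁ ∧ ¬ l ^ 2 ∣ NN f₂) :
    ∀ l : ℕ, l.Prime → l ∣ nm f₁.2 → ¬ l ∣ NN e ∧ ¬ l ^ 2 ∣ nm f₁.2 := by
  intro l hl hlx
  have hgq := gp_nm hq hq4
  have hdt1 : dt f₁.1 f₁.2 = 1 := (Rs_dt1 h).trans hdt
  have hdt2 : dt f₂.1 f₂.2 = 1 := (Rs_dt2 h).trans hdt
  have hA : nm e.1 = q * nm f₁.1 := by rw [h.1, nm_mul, hgq]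
  have hB : nm f₂.2 = q * nm e.2 := by rw [h.2.2.2, nm_mul, nm_star, hgq]
  have hN1 : NN f₁ = nm f₁.1 * nm f₁.2 := rfl
  have hN2 : NN f₂ = nm f₁.2 * (q * nm e.2) := by unfold NN; rw [h.2.2.1, hB]
  -- a general implication
  have gen : (l ∣ NN e ∨ l ^ 2 ∣ nm f₁.2) → l ^ 2 ∣ NN f₁ ∨ l ^ 2 ∣ NN f₂ := by
    rintro (h1 | h1)
    · have h2 : l ∣ nm f₁.1 * (q * nm e.2) := by
        have : NN e = nm f₁.1 * (q * nm e.2) := by unfold NN; rw [hA]; ring
        rwa [← this]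
      rcases (Nat.Prime.dvd_mul hl).1 h2 with h3 | h3
      · left
        rw [hN1, sq]
        exact mul_dvd_mul h3 hlx
      · right
        rw [hN2, sq]
        exact mul_dvd_mul hlx h3
    · left
      rw [hN1]
      exact h1.trans (Dvd.intro_left _ rfl)
  have main : ¬ (l ∣ NN e ∨ l ^ 2 ∣ nm f₁.2) := by
    intro hcon
    rcases prime_dvd_nm_prim hl (prim_of_dt hdt1).2 hlx with h2 | h4
    · subst h2
      rcases gen hcon with h3 | h3
      · exact not_four_dvd_NN hdt1 (by simpa using h3)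
      · exact not_four_dvd_NN hdt2 (by simpa using h3)
    · by_cases hlz : l ≤ z
      · refine hloc l hl h4 hlz ⟨?_, ?_⟩
        · rw [← Rs_nm hgq h]
          exact Dvd.dvd.mul_left (Int.natCast_dvd_natCast.2 hlx) _
        · rcases hcon with h5 | h5
          · left
            have : ((NN e : ℕ) : ℤ) = nm e.1 * nm e.2 := by unfold NN; push_cast; rfl
            rw [← this]
            exact Int.natCast_dvd_natCast.2 h5
          · right
            rw [← Rs_nm hgq h]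
            have : ((l ^ 2 : ℕ) : ℤ) ∣ (nm f₁.2 : ℤ) := Int.natCast_dvd_natCast.2 h5
            push_cast at this
            exact Dvd.dvd.mul_left this _
      · push Not at hlz
        by_cases hL : (l : ℝ) ≤ L
        · exact hmid l hl h4 hlz hL hlx hcon
        · push Not at hL
          have hb := hbig l hl hL
          rcases gen hcon with h5 | h5
          · exact hb.1 h5
          · exact hb.2 h5
  push Not at main
  exact main

/-- the excess decreases -/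
lemma exc_key {p q : ℕ} {e f₁ f₂ : GaussianInt × GaussianInt}
    (hdt : dt e.1 e.2 = 1) (hq : q.Prime) (hq4 : q % 4 = 1) (hqp : q ≠ p)
    (h : Rs (gp q) e f₁ f₂)
    (hx : ∀ l : ℕ, l.Prime → l ∣ nm f₁.2 → ¬ l ∣ NN e ∧ ¬ l ^ 2 ∣ nm f₁.2)
    (hp : (p = 1 ∧ exc (NN e) = 0) ∨ (p.Prime ∧ p ∣ nm e.1 ∧ p ∣ nm e.2)) :
    exc (NN f₁) ≤ exc (NN e) - 1 ∧ exc (NN f₂) ≤ exc (NN e) - 1 := by
  have hgq := gp_nm hq hq4
  have hdt1 : dt f₁.1 f₁.2 = 1 := (Rs_dt1 h).trans hdt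
  have hdt2 : dt f₂.1 f₂.2 = 1 := (Rs_dt2 h).trans hdt
  have hA : nm e.1 = q * nm f₁.1 := by rw [h.1, nm_mul, hgq]
  have hB : nm f₂.2 = q * nm e.2 := by rw [h.2.2.2, nm_mul, nm_star, hgq]
  have hN1 : NN f₁ = nm f₁.1 * nm f₁.2 := rfl
  have hN2 : NN f₂ = (q * nm e.2) * nm f₁.2 := by unfold NN; rw [h.2.2.1, hB]; ring
  have hN := NN_ne_zero hdt
  have hNe : NN e = nm f₁.1 * (q * nm e.2) := by unfold NN; rw [hA]; ring
  have hNe0 : nm f₁.1 * (q * nm e.2) ≠ 0 := hNe ▸ hN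
  have ha0 : nm f₁.1 ≠ 0 := left_ne_zero_of_mul hNe0
  have hb0 : q * nm e.2 ≠ 0 := right_ne_zero_of_mul hNe0
  have hx0 : nm f₁.2 ≠ 0 := right_ne_zero_of_mul (hN1 ▸ NN_ne_zero hdt1)
  have hsqf : Squarefree (nm f₁.2) := by
    rw [Nat.squarefree_iff_prime_squarefree]
    intro l hl hll
    rw [← sq] at hll
    exact (hx l hl ((dvd_pow_self l two_ne_zero).trans hll)).2 hll
  have hcop : Nat.Coprime (NN e) (nm f₁.2) := by
    rw [Nat.coprime_comm]
    apply Nat.Coprime.symm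
    apply Nat.Coprime.symm
    apply Nat.coprime_of_dvd
    intro l hl h1 h2
    exact (hx l hl h1).1 h2
  have hcop1 : Nat.Coprime (nm f₁.1) (nm f₁.2) :=
    Nat.Coprime.coprime_dvd_left (hNe ▸ Dvd.intro _ rfl) hcop
  have hcop2 : Nat.Coprime (q * nm e.2) (nm f₁.2) :=
    Nat.Coprime.coprime_dvd_left (hNe ▸ Dvd.intro_left _ rfl) hcop
  rw [hN1, exc_mul_sqf ha0 hsqf hcop1, hN2, exc_mul_sqf hb0 hsqf hcop2]
  rcases hp with ⟨_, h0⟩ | ⟨hp, hp1, hp2⟩
  · have h1 : exc (nm f₁.1) ≤ exc (NN e) := exc_mono (hNe ▸ Dvd.intro _ rfl) hN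
    have h2 : exc (q * nm e.2) ≤ exc (NN e) := exc_mono (hNe ▸ Dvd.intro_left _ rfl) hN
    omega
  · have hpa : p ∣ nm f₁.1 := by
      rw [hA] at hp1
      rcases (Nat.Prime.dvd_mul hp).1 hp1 with h3 | h3
      · exact absurd ((Nat.prime_dvd_prime_iff_eq hp hq).1 h3).symm hqp
      · exact h3
    have hpb : p ∣ q * nm e.2 := hp2.trans (Dvd.intro_left _ rfl)
    have h1 : exc (p * nm f₁.1) ≤ exc (NN e) := by
      apply exc_mono _ hN
      rw [hNe, mul_comm p]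
      exact mul_dvd_mul dvd_rfl hpb
    have h2 : exc (p * (q * nm e.2)) ≤ exc (NN e) := by
      apply exc_mono _ hN
      rw [hNe]
      exact mul_dvd_mul hpa dvd_rfl
    rw [exc_prime_mul hp ha0 hpa] at h1
    rw [exc_prime_mul hp hb0 hpb] at h2
    omega

/-- the Liouville signs -/
lemma lam_key {ρ : GaussianInt} {e f₁ f₂ : GaussianInt × GaussianInt} (hdt : dt e.1 e.2 = 1)
    (h : Rs ρ e f₁ f₂) : lam (NN f₁) * lam (NN f₂) = lam (NN e) := by
  have hdt1 : dt f₁.1 f₁.2 = 1 := (Rs_dt1 h).trans hdt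
  have hdt2 : dt f₂.1 f₂.2 = 1 := (Rs_dt2 h).trans hdt
  have hx0 : nm f₁.2 ≠ 0 := right_ne_zero_of_mul (show nm f₁.1 * nm f₁.2 ≠ 0 from NN_ne_zero hdt1)
  rw [← lam_mul (NN_ne_zero hdt1) (NN_ne_zero hdt2), Rs_NN h, lam_mul (NN_ne_zero hdt)
    (pow_ne_zero 2 hx0), sq, lam_mul hx0 hx0, lam_sq, mul_one]

/-- the size of the new pairs -/
lemma size_key {q : ℕ} {W X : ℝ} {e f₁ f₂ : GaussianInt × GaussianInt}
    (hdt : dt e.1 e.2 = 1) (hq : q.Prime) (hq4 : q % 4 = 1) (h : Rs (gp q) e f₁ f₂)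
    (hX : 0 ≤ X) (hW : 1 ≤ W)
    (h1 : (nm e.1 : ℝ) ≤ W * X) (h2 : (nm e.2 : ℝ) ≤ W * X) :
    f₁ ∈ dedge (4 * q * W * X) ∧ f₂ ∈ dedge (4 * q * W * X) := by
  have hgq := gp_nm hq hq4
  have hq1 : (1 : ℝ) ≤ q := by exact_mod_cast hq.one_lt.le
  have hdt1 : dt f₁.1 f₁.2 = 1 := (Rs_dt1 h).trans hdt
  have hdt2 : dt f₂.1 f₂.2 = 1 := (Rs_dt2 h).trans hdt
  have hA : (nm e.1 : ℝ) = q * nm f₁.1 := by rw [h.1, nm_mul, hgq]; push_cast; rfl
  have hB : (nm f₂.2 : ℝ) = q * nm e.2 := by rw [h.2.2.2, nm_mul, nm_star, hgq]; push_cast; rfl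
  have hB' : (nm (star (gp q) * e.2) : ℝ) = q * nm e.2 := by
    rw [nm_mul, nm_star, hgq]; push_cast; rfl
  have hWX : 0 ≤ W * X := by positivity
  have ha : (nm f₁.1 : ℝ) ≤ W * X := by
    have : (0 : ℝ) ≤ nm f₁.1 := by positivity
    nlinarith
  have hb : (nm f₂.2 : ℝ) ≤ q * (W * X) := by
    rw [hB]
    exact mul_le_mul_of_nonneg_left h2 (by positivity)
  have hx : (nm f₁.2 : ℝ) ≤ 2 * (nm f₁.1 + nm (star (gp q) * e.2)) := by
    rw [h.2.1]
    generalize f₁.1 = a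
    generalize star (gp q) * e.2 = b
    rw [nm_castR, nm_castR, nm_castR]
    simp only [Zsqrtd.re_add, Zsqrtd.im_add]
    push_cast
    nlinarith [sq_nonneg ((a.re : ℝ) - b.re), sq_nonneg ((a.im : ℝ) - b.im)]
  rw [hB'] at hx
  have hx2 : (nm f₁.2 : ℝ) ≤ 4 * q * W * X := by
    have h3 : (q : ℝ) * nm e.2 ≤ q * (W * X) := mul_le_mul_of_nonneg_left h2 (by positivity)
    have h4 : W * X ≤ q * (W * X) := le_mul_of_one_le_left hWX hq1
    nlinarith
  have h5 : W * X ≤ q * (W * X) := le_mul_of_one_le_left hWX hq1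
  rw [mem_dedge, mem_dedge, h.2.2.1]
  refine ⟨⟨hdt1, ?_, hx2⟩, ⟨?_, hx2, ?_⟩⟩
  · nlinarith
  · rw [← h.2.2.1]; exact hdt2
  · nlinarith

end Pool.Agent.W285.GM
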