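import Pool.Agent.W285.GM.ResB
import Pool.Agent.Helper591.APRec

/-!
Project GM, task GP-6 (helper285): sets of auxiliary primes and constants.
-/

set_option autoImplicit false

namespace Pool.Agent.W285.GM

open Finset Filter
open Pool.Agent.H376R2.MR Pool.Agent.H970R2.X Pool.Agent.W78.GM
open Pool.Agent.Helper591.APRec (g g_nonneg not_summable_g)

lemma g_le_one {q : ℕ} (a : ZMod q) (n : ℕ) : g a n ≤ 1 := by
  unfold g
  split_ifs with h
  · rw [div_le_one (by exact_mod_cast h.1.pos)]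
    exact_mod_cast h.1.one_lt.le
  · exact zero_le_one

/-- finite sets of primes in a residue class with prescribed reciprocal sum -/
lemma exists_QQ {M r : ℕ} (hM : 0 < M) (hr : r.Coprime M) (N : ℕ) {S : ℝ} (hS : 0 ≤ S) :
    ∃ Q : Finset ℕ, (∀ q ∈ Q, q.Prime ∧ q ≡ r [MOD M] ∧ N < q) ∧ S ≤ ∑ q ∈ Q, 1 / (q : ℝ) ∧
      ∑ q ∈ Q, 1 / (q : ℝ) ≤ S + 1 := by
  classical
  have : NeZero M := ⟨hM.ne'⟩
  have hu : IsUnit (r : ZMod M) := (ZMod.isUnit_iff_coprime r M).2 hr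
  have hns := not_summable_g hu
  rw [not_summable_iff_tendsto_nat_atTop_of_nonneg (g_nonneg _)] at hns
  -- the partial sums beyond `N`
  have hex : ∃ n : ℕ, S ≤ ∑ i ∈ Ico (N + 1) n, g (r : ZMod M) i := by
    obtain ⟨n, hn⟩ := (hns.eventually (eventually_ge_atTop
      (S + ∑ i ∈ range (N + 1), g (r : ZMod M) i))).exists_forall_of_atTop
    have h1 := hn (max n (N + 1)) (le_max_left _ _)
    refine ⟨max n (N + 1), ?_⟩
    rw [← Finset.sum_range_add_sum_Ico _ (le_max_right n (N + 1))] at h1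
    linarith
  obtain ⟨n, hn, hmin⟩ : ∃ n, S ≤ ∑ i ∈ Ico (N + 1) n, g (r : ZMod M) i ∧
      ∀ k < n, ¬ S ≤ ∑ i ∈ Ico (N + 1) k, g (r : ZMod M) i :=
    ⟨Nat.find hex, Nat.find_spec hex, fun k hk => Nat.find_min hex hk⟩
  have hup : ∑ i ∈ Ico (N + 1) n, g (r : ZMod M) i ≤ S + 1 := by
    by_cases h : N + 1 < n
    · obtain ⟨k, rfl⟩ : ∃ k, n = k + 1 := ⟨n - 1, by omega⟩
      rw [Finset.sum_Ico_succ_top (by omega)]
      have h1 := hmin k (Nat.lt_succ_self k)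
      have h2 := g_le_one (r : ZMod M) k
      push Not at h1
      linarith
    · rw [Finset.Ico_eq_empty (by omega), Finset.sum_empty]
      linarith
  have hsum : ∑ q ∈ (Ico (N + 1) n).filter (fun q : ℕ => q.Prime ∧ (q : ZMod M) = r), 1 / (q : ℝ) =
      ∑ i ∈ Ico (N + 1) n, g (r : ZMod M) i := by
    rw [Finset.sum_filter]
    rfl
  refine ⟨(Ico (N + 1) n).filter (fun q : ℕ => q.Prime ∧ (q : ZMod M) = r), ?_, ?_, ?_⟩
  · intro q hq
    rw [mem_filter, mem_Ico] at hq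
    refine ⟨hq.2.1, ?_, by omega⟩
    exact (ZMod.natCast_eq_natCast_iff _ _ _).1 hq.2.2
  · rw [hsum]; exact hn
  · rw [hsum]; exact hup

lemma mz_pos (z : ℕ) : 0 < mz z := by
  unfold mz
  apply Finset.prod_pos
  intro l hl
  rw [mem_filter] at hl
  exact pow_pos hl.2.1.pos 2

lemma mz_le (z : ℕ) : mz z ≤ 16 ^ z := by
  unfold mz
  rw [Finset.prod_pow]
  have h1 : ∏ l ∈ (range (z + 1)).filter (fun l => l.Prime ∧ l % 4 = 1), l ≤ primorial z := by
    unfold primorial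
    apply Finset.prod_le_prod_of_subset_of_one_le'
    · intro l hl
      rw [mem_filter] at hl ⊢
      exact ⟨hl.1, hl.2.1⟩
    · intro l hl _
      rw [mem_filter] at hl
      exact hl.2.one_lt.le
  calc (∏ l ∈ (range (z + 1)).filter (fun l => l.Prime ∧ l % 4 = 1), l) ^ 2
      ≤ (4 ^ z) ^ 2 := Nat.pow_le_pow_left (h1.trans (primorial_le_four_pow z)) 2
    _ = 16 ^ z := by rw [← pow_mul, mul_comm z 2, pow_mul]; norm_num

lemma prod_le_exp (Q : Finset ℕ) (hQ : ∀ q ∈ Q, q.Prime) :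
    ∏ q ∈ Q, (1 - 1 / (q : ℝ)) ≤ Real.exp (-∑ q ∈ Q, 1 / (q : ℝ)) := by
  rw [← Finset.sum_neg_distrib, Real.exp_sum]
  apply Finset.prod_le_prod
  · intro q hq
    have : (1 : ℝ) ≤ q := by exact_mod_cast (hQ q hq).one_lt.le
    rw [sub_nonneg, div_le_one (by linarith)]
    exact this
  · intro q _
    have := Real.add_one_le_exp (-(1 / (q : ℝ)))
    linarith

lemma sum_PP_le (z : ℕ) : ∑ p ∈ PP z, 1 / (p : ℝ) ^ 2 ≤ 1 := by
  rcases Nat.eq_zero_or_pos z with rfl | hz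
  · have : PP 0 = ∅ := by
      rw [Finset.eq_empty_iff_forall_notMem]
      intro p hp
      rw [mem_PP] at hp
      have := hp.1.pos
      omega
    rw [this]
    simp
  · have h1 := sum_Ioc_inv_sq_le_sub (α := ℝ) one_ne_zero (show 1 ≤ z from hz)
    have h2 : ∑ p ∈ PP z, 1 / (p : ℝ) ^ 2 ≤ ∑ i ∈ Ioc 1 z, ((i : ℝ) ^ 2)⁻¹ := by
      calc ∑ p ∈ PP z, 1 / (p : ℝ) ^ 2 = ∑ p ∈ PP z, ((p : ℝ) ^ 2)⁻¹ := by
            apply Finset.sum_congr rfl
            intro p _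
            rw [one_div]
        _ ≤ ∑ i ∈ Ioc 1 z, ((i : ℝ) ^ 2)⁻¹ := by
            apply Finset.sum_le_sum_of_subset_of_nonneg
            · intro p hp
              rw [mem_PP] at hp
              rw [mem_Ioc]
              exact ⟨hp.1.one_lt, hp.2.2⟩
            · intro i _ _
              positivity
    have h3 : (0 : ℝ) ≤ (z : ℝ)⁻¹ := by positivity
    have h4 : ((1 : ℕ) : ℝ)⁻¹ = 1 := by simp
    rw [h4] at h1
    linarith

/-- the choice of `z` -/
lemma exists_z {C1 C2 δ lK : ℝ} (hC1 : 0 < C1) (hδ : 0 < δ) (hlK : 0 ≤ lK) :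
    ∃ z : ℕ, 5 ≤ z ∧ C2 / z ≤ δ / 8 ∧
      6 * (C1 * (lK + z * Real.log 16 + 1 + 1) / (z * Real.log z)) ≤ δ / 8 := by
  have hl16 : 0 < Real.log 16 := Real.log_pos (by norm_num)
  set c := lK + Real.log 16 + 2 with hc
  have hc0 : 0 < c := by positivity
  obtain ⟨z, hz5, hz1, hz2⟩ : ∃ z : ℕ, 5 ≤ z ∧ 8 * C2 / δ ≤ z ∧ 48 * C1 * c / δ ≤ Real.log z := by
    have t1 : Tendsto (fun z : ℕ => (z : ℝ)) atTop atTop := tendsto_natCast_atTop_atTop
    have t2 : Tendsto (fun z : ℕ => Real.log (z : ℝ)) atTop atTop :=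
      Real.tendsto_log_atTop.comp t1
    have h := ((eventually_ge_atTop 5).and (t1.eventually_ge_atTop (8 * C2 / δ))).and
      (t2.eventually_ge_atTop (48 * C1 * c / δ))
    obtain ⟨z, ⟨h1, h2⟩, h3⟩ := h.exists
    exact ⟨z, h1, h2, h3⟩
  have hzR : (5 : ℝ) ≤ z := by exact_mod_cast hz5
  have hz0 : (0 : ℝ) < z := by linarith
  have hlz : 0 < Real.log z := Real.log_pos (by linarith)
  refine ⟨z, hz5, ?_, ?_⟩
  · rw [div_le_iff₀ hz0]
    rw [div_le_iff₀ hδ] at hz1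
    nlinarith
  · rw [div_le_iff₀ hδ] at hz2
    have h1 : lK + z * Real.log 16 + 1 + 1 ≤ z * c := by
      rw [hc]
      nlinarith
    have h2 : C1 * (lK + z * Real.log 16 + 1 + 1) / (z * Real.log z) ≤ C1 * c / Real.log z := by
      rw [div_le_div_iff₀ (by positivity) hlz]
      have := mul_le_mul_of_nonneg_left h1 (by positivity : 0 ≤ C1 * Real.log z)
      nlinarith
    have h3 : C1 * c / Real.log z ≤ δ / 48 := by
      rw [div_le_iff₀ hlz]
      nlinarith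
    linarith

end Pool.Agent.W285.GM
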