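import Pool.Agent.W285.GM.ResC

/-!
Project GM, task GP-6 (helper285): multiplicities and counting lemmas for the resolution.
-/

set_option autoImplicit false

namespace Pool.Agent.W285.GM

open Finset Filter
open Pool.Agent.H376R2.MR Pool.Agent.H970R2.X Pool.Agent.W78.GM

lemma modEq_of_dvd {M : ℕ} {v v' : GaussianInt} (h : (M : GaussianInt) ∣ v - v') :
    v.re ≡ v'.re [ZMOD M] ∧ v.im ≡ v'.im [ZMOD M] := by
  have h1 := (Zsqrtd.intCast_dvd (d := -1) (M : ℤ) (v - v')).1 (by exact_mod_cast h)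
  constructor
  · apply Int.ModEq.symm
    rw [Int.modEq_iff_dvd]
    simpa using h1.1
  · apply Int.ModEq.symm
    rw [Int.modEq_iff_dvd]
    simpa using h1.2

lemma nm_modEq {M : ℕ} {v v' : GaussianInt} (h : (M : GaussianInt) ∣ v - v') :
    (nm v : ℤ) ≡ nm v' [ZMOD M] := by
  obtain ⟨h1, h2⟩ := modEq_of_dvd h
  rw [nm_cast, nm_cast]
  exact (h1.pow 2).add (h2.pow 2)

lemma ip_modEq {M : ℕ} {v v' u u' : GaussianInt} (h : (M : GaussianInt) ∣ v - v')
    (h' : (M : GaussianInt) ∣ u - u') : ip v u ≡ ip v' u' [ZMOD M] := by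
  obtain ⟨h1, h2⟩ := modEq_of_dvd h
  obtain ⟨h3, h4⟩ := modEq_of_dvd h'
  unfold ip
  exact (h1.mul h3).add (h2.mul h4)

/-- data for the resolution of `e` -/
def Pd (z : ℕ) (QV : GaussianInt → GaussianInt → Finset ℕ) (e : GaussianInt × GaussianInt)
    (t : Bool × GaussianInt × ℕ) (e' : GaussianInt × GaussianInt) (q : ℕ)
    (f₁ f₂ : GaussianInt × GaussianInt) : Prop :=
  t ∈ TT z ∧ Tr t.1 t.2.1 e e' ∧
    ((t.2.2 = 1 ∧ exc (NN e) = 0) ∨ (t.2.2.Prime ∧ t.2.2 ∣ nm e'.1 ∧ t.2.2 ∣ nm e'.2)) ∧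
    q ∈ QV e'.1 e'.2 ∧ gp q ∣ e'.1 ∧ Rs (gp q) e' f₁ f₂

lemma exists_data (z : ℕ) (QV : GaussianInt → GaussianInt → Finset ℕ) :
    ∃ (tF : GaussianInt × GaussianInt → Bool × GaussianInt × ℕ)
      (eF : GaussianInt × GaussianInt → GaussianInt × GaussianInt)
      (qF : GaussianInt × GaussianInt → ℕ)
      (F₁ F₂ : GaussianInt × GaussianInt → GaussianInt × GaussianInt),
      ∀ e, (∃ t e' q f₁ f₂, Pd z QV e t e' q f₁ f₂) → Pd z QV e (tF e) (eF e) (qF e) (F₁ e) (F₂ e)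
    := by
  classical
  have hch : ∀ e, ∃ (t : Bool × GaussianInt × ℕ) (e' : GaussianInt × GaussianInt) (q : ℕ)
      (f₁ f₂ : GaussianInt × GaussianInt),
      (∃ t e' q f₁ f₂, Pd z QV e t e' q f₁ f₂) → Pd z QV e t e' q f₁ f₂ := by
    intro e
    by_cases h : ∃ t e' q f₁ f₂, Pd z QV e t e' q f₁ f₂
    · obtain ⟨t, e', q, f₁, f₂, h'⟩ := h
      exact ⟨t, e', q, f₁, f₂, fun _ => h'⟩
    · exact ⟨(false, 1, 1), (0, 0), 0, (0, 0), (0, 0), fun h' => absurd h' h⟩
  choose tF eF qF F₁ F₂ hF using hch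
  exact ⟨tF, eF, qF, F₁, F₂, hF⟩

lemma TT_ne_zero {z : ℕ} {t : Bool × GaussianInt × ℕ} (ht : t ∈ TT z) : t.2.1 ≠ 0 := by
  intro h0
  obtain ⟨h1, h2⟩ := TT_prop ht
  rw [h0, nm_zero] at h2
  rcases h2 with h2 | h2
  · exact absurd h2 (by norm_num)
  · rcases h1 with h1 | h1
    · rw [h1] at h2; exact absurd h2 (by norm_num)
    · rw [← h2] at h1; exact absurd h1.1 (by norm_num)

lemma mult_key {z : ℕ} {QV : GaussianInt → GaussianInt → Finset ℕ} {UU : Finset ℕ}
    (hUU : ∀ v u, QV v u ⊆ UU)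
    (hQV : ∀ v u : GaussianInt, ∀ q ∈ QV v u, q.Prime ∧ q % 4 = 1 ∧ z ^ 2 < q)
    {tF : GaussianInt × GaussianInt → Bool × GaussianInt × ℕ}
    {eF : GaussianInt × GaussianInt → GaussianInt × GaussianInt}
    {qF : GaussianInt × GaussianInt → ℕ}
    {F₁ F₂ : GaussianInt × GaussianInt → GaussianInt × GaussianInt}
    (U : Finset (GaussianInt × GaussianInt))
    (hU : ∀ e ∈ U, Pd z QV e (tF e) (eF e) (qF e) (F₁ e) (F₂ e))
    (f : GaussianInt × GaussianInt) :
    (open scoped Classical in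
      (U.filter (fun e => F₁ e = f)).card ≤ (TT z).card * UU.card ∧
      (U.filter (fun e => F₂ e = f)).card ≤ (TT z).card * UU.card) := by
  classical
  rw [← Finset.card_product]
  have maps : ∀ e ∈ U, (tF e, qF e) ∈ TT z ×ˢ UU := by
    intro e he
    obtain ⟨h1, _, _, h4, _⟩ := hU e he
    rw [mem_product]
    exact ⟨h1, hUU _ _ h4⟩
  constructor
  · apply Finset.card_le_card_of_injOn (fun e => (tF e, qF e))
    · intro e he
      rw [mem_coe, mem_filter] at he
      exact maps e he.1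
    · intro e he e' he' hee
      rw [mem_coe, mem_filter] at he he'
      obtain ⟨ht, hT, _, h4, _, hR⟩ := hU e he.1
      obtain ⟨ht', hT', _, h4', _, hR'⟩ := hU e' he'.1
      have h5 : tF e = tF e' := congrArg Prod.fst hee
      have h6 : qF e = qF e' := congrArg Prod.snd hee
      have hq := hQV _ _ _ h4
      have hρ := ne_zero_of_nm hq.1 (gp_nm hq.1 hq.2.1)
      rw [← h6, he'.2] at hR'
      rw [he.2] at hR
      have h7 : eF e = eF e' := Rs_inj1 hρ hR hR'
      rw [← h5, ← h7] at hT'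
      exact Tr_inj (TT_ne_zero ht) hT hT'
  · apply Finset.card_le_card_of_injOn (fun e => (tF e, qF e))
    · intro e he
      rw [mem_coe, mem_filter] at he
      exact maps e he.1
    · intro e he e' he' hee
      rw [mem_coe, mem_filter] at he he'
      obtain ⟨ht, hT, _, h4, _, hR⟩ := hU e he.1
      obtain ⟨ht', hT', _, h4', _, hR'⟩ := hU e' he'.1
      have h5 : tF e = tF e' := congrArg Prod.fst hee
      have h6 : qF e = qF e' := congrArg Prod.snd hee
      have hq := hQV _ _ _ h4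
      have hρ := ne_zero_of_nm hq.1 (gp_nm hq.1 hq.2.1)
      rw [← h6, he'.2] at hR'
      rw [he.2] at hR
      have h7 : eF e = eF e' := Rs_inj2 hρ hR hR'
      rw [← h5, ← h7] at hT'
      exact Tr_inj (TT_ne_zero ht) hT hT'

lemma dedge_mono {X Y : ℝ} (h : X ≤ Y) : dedge X ⊆ dedge Y := by
  intro e he
  rw [mem_dedge] at he ⊢
  exact ⟨he.1, he.2.1.trans h, he.2.2.trans h⟩

/-- sizes -/
lemma size_all {z : ℕ} (hz : 5 ≤ z) {QV : GaussianInt → GaussianInt → Finset ℕ} {UU : Finset ℕ}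
    (hUU : ∀ v u, QV v u ⊆ UU)
    (hQV : ∀ v u : GaussianInt, ∀ q ∈ QV v u, q.Prime ∧ q % 4 = 1 ∧ z ^ 2 < q)
    {X : ℝ} (hX : 0 ≤ X) {e e' f₁ f₂ : GaussianInt × GaussianInt}
    {t : Bool × GaussianInt × ℕ} {q : ℕ} (he : e ∈ dedge X) (h : Pd z QV e t e' q f₁ f₂) :
    f₁ ∈ dedge ((4 * (∑ q ∈ UU, (q : ℝ)) * z + 1) * X) ∧
      f₂ ∈ dedge ((4 * (∑ q ∈ UU, (q : ℝ)) * z + 1) * X) := by
  obtain ⟨ht, hT, _, h4, _, hR⟩ := h
  have hq := hQV _ _ _ h4
  have hz1 : (1 : ℝ) ≤ z := by exact_mod_cast (by omega : 1 ≤ z)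
  have hϖ := TT_ne_zero ht
  have he' := Tr_redge hϖ hT he
  rw [mem_redge] at he'
  have hn1 : (1 : ℝ) ≤ nm t.2.1 := by exact_mod_cast nm_pos hϖ
  have hnz : (nm t.2.1 : ℝ) ≤ z := by
    obtain ⟨h1, h2⟩ := TT_prop ht
    rcases h2 with h2 | h2
    · rw [h2]; simpa using hz1
    · rcases h1 with h1 | h1
      · rw [h2, h1]; simpa using hz1
      · rw [h2]; exact_mod_cast h1.2.2
  have hdiv : X / nm t.2.1 ≤ z * X := by
    rw [div_le_iff₀ (by linarith)]
    have : X * 1 ≤ z * X * nm t.2.1 := by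
      calc X * 1 = 1 * X * 1 := by ring
        _ ≤ z * X * nm t.2.1 := by gcongr
    linarith
  have hmul : X * nm t.2.1 ≤ z * X := by
    rw [mul_comm]
    gcongr
  have hB1 : B1 t.1 t.2.1 X ≤ z * X := by
    unfold B1
    split_ifs
    · exact hmul
    · exact hdiv
  have hB2 : B2 t.1 t.2.1 X ≤ z * X := by
    unfold B2
    split_ifs
    · exact hdiv
    · exact hmul
  have hs := size_key he'.1 hq.1 hq.2.1 hR hX hz1 (he'.2.1.trans hB1) (he'.2.2.trans hB2)
  have hqs : (q : ℝ) ≤ ∑ q ∈ UU, (q : ℝ) :=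
    Finset.single_le_sum (f := fun q : ℕ => (q : ℝ)) (fun i _ => by positivity) (hUU _ _ h4)
  have hle : 4 * (q : ℝ) * z * X ≤ (4 * (∑ q ∈ UU, (q : ℝ)) * z + 1) * X := by
    have h0 : 0 ≤ X * z := by positivity
    nlinarith
  exact ⟨dedge_mono hle hs.1, dedge_mono hle hs.2⟩

/-- counting by a relation -/
lemma card_le_rel {α β : Type*} (s : Finset α) (t : Finset β) (R : α → β → Prop)
    (h1 : ∀ a ∈ s, ∃ b ∈ t, R a b) (h2 : ∀ a a' b, R a b → R a' b → a = a') :
    s.card ≤ t.card := by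
  classical
  rcases isEmpty_or_nonempty β with hE | hE
  · have : s = ∅ := by
      rw [Finset.eq_empty_iff_forall_notMem]
      intro a ha
      obtain ⟨b, _⟩ := h1 a ha
      exact hE.false b
    rw [this]
    simp
  · choose! f hf using h1
    apply Finset.card_le_card_of_injOn f
    · intro a ha
      exact (hf a ha).1
    · intro a ha a' ha' h
      have h3 := (hf a ha).2
      have h4 := (hf a' ha').2
      rw [← h] at h4
      exact h2 _ _ _ h3 h4

open scoped Classical in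
/-- the exceptional set of `S_EXC2` -/
noncomputable def EX (z : ℕ) (Q : GaussianInt → GaussianInt → Finset ℕ) (A : ℕ) (X X₁ X₂ : ℝ)
    (p : ℕ) : Finset (GaussianInt × GaussianInt) :=
  (redge X₁ X₂).filter (fun e => (p ∣ nm e.1 ∧ p ∣ nm e.2) ∧
      ∃ q ∈ Q e.1 e.2, gp q ∣ e.1 ∧ ∃ l : ℕ, l.Prime ∧ l % 4 = 1 ∧ z < l ∧
        (l : ℝ) ≤ Real.log X ^ A ∧ l ∣ nm (xx (gp q) e) ∧
        (l ∣ NN e ∨ l ^ 2 ∣ nm (xx (gp q) e)))

open scoped Classical in
/-- the pairs for which some transform is in the exceptional set -/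
noncomputable def E3 (z : ℕ) (Q : GaussianInt → GaussianInt → Finset ℕ) (A : ℕ) (X : ℝ) :
    Finset (GaussianInt × GaussianInt) :=
  (dedge X).filter (fun e => ∃ t ∈ TT z, ∃ e', Tr t.1 t.2.1 e e' ∧
    e' ∈ EX z Q A X (B1 t.1 t.2.1 X) (B2 t.1 t.2.1 X) t.2.2)

lemma card_E3 {z : ℕ} {Q : GaussianInt → GaussianInt → Finset ℕ} {A : ℕ} {X b : ℝ} (hb : 0 ≤ b)
    (h : ∀ t ∈ TT z, ((EX z Q A X (B1 t.1 t.2.1 X) (B2 t.1 t.2.1 X) t.2.2).card : ℝ) ≤
      b / (t.2.2 : ℝ) ^ 2) : ((E3 z Q A X).card : ℝ) ≤ 6 * b := by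
  classical
  set R : Bool × GaussianInt × ℕ → Finset (GaussianInt × GaussianInt) := fun t =>
    (dedge X).filter (fun e => ∃ e', Tr t.1 t.2.1 e e' ∧
      e' ∈ EX z Q A X (B1 t.1 t.2.1 X) (B2 t.1 t.2.1 X) t.2.2) with hR
  have hRc : ∀ t ∈ TT z, ((R t).card : ℝ) ≤ b / (t.2.2 : ℝ) ^ 2 := by
    intro t ht
    refine le_trans ?_ (h t ht)
    have := card_le_rel (R t) (EX z Q A X (B1 t.1 t.2.1 X) (B2 t.1 t.2.1 X) t.2.2)
      (fun e e' => Tr t.1 t.2.1 e e') ?_ ?_
    · exact_mod_cast this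
    · intro e he
      rw [hR, mem_filter] at he
      obtain ⟨_, e', h1, h2⟩ := he
      exact ⟨e', h2, h1⟩
    · intro a a' b hab hab'
      exact Tr_inj (TT_ne_zero ht) hab hab'
  have hsub : E3 z Q A X ⊆ R (false, 1, 1) ∪ (PP z).biUnion (fun p => (T5 p).biUnion R) := by
    intro e he
    unfold E3 at he
    rw [mem_filter] at he
    obtain ⟨he, t, ht, e', hT, hE⟩ := he
    have hRt : e ∈ R t := by
      rw [hR, mem_filter]
      exact ⟨he, e', hT, hE⟩
    unfold TT at ht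
    rw [mem_union, mem_singleton, mem_biUnion] at ht
    rw [mem_union, mem_biUnion]
    rcases ht with rfl | ⟨p, hp, ht⟩
    · exact Or.inl hRt
    · refine Or.inr ⟨p, hp, ?_⟩
      rw [mem_biUnion]
      exact ⟨t, ht, hRt⟩
  have h1 : ((E3 z Q A X).card : ℝ) ≤ (R (false, 1, 1)).card +
      ∑ p ∈ PP z, ∑ t ∈ T5 p, ((R t).card : ℝ) := by
    have h2 := (Finset.card_le_card hsub).trans (Finset.card_union_le _ _)
    have h3 : ((PP z).biUnion (fun p => (T5 p).biUnion R)).card ≤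
        ∑ p ∈ PP z, ∑ t ∈ T5 p, (R t).card :=
      Finset.card_biUnion_le.trans (Finset.sum_le_sum fun p _ => Finset.card_biUnion_le)
    have h4 : (E3 z Q A X).card ≤ (R (false, 1, 1)).card + ∑ p ∈ PP z, ∑ t ∈ T5 p, (R t).card :=
      h2.trans (Nat.add_le_add_left h3 _)
    exact_mod_cast h4
  have h2 : ((R (false, 1, 1)).card : ℝ) ≤ b := by
    have := hRc _ (TT_one z)
    simpa using this
  have h3 : ∑ p ∈ PP z, ∑ t ∈ T5 p, ((R t).card : ℝ) ≤ 5 * b := by
    calc ∑ p ∈ PP z, ∑ t ∈ T5 p, ((R t).card : ℝ)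
        ≤ ∑ p ∈ PP z, 5 * (b * (1 / (p : ℝ) ^ 2)) := by
          apply Finset.sum_le_sum
          intro p hp
          calc ∑ t ∈ T5 p, ((R t).card : ℝ) ≤ ∑ t ∈ T5 p, b * (1 / (p : ℝ) ^ 2) := by
                apply Finset.sum_le_sum
                intro t ht
                have := hRc t (TT_mem hp ht)
                have h5 : t.2.2 = p := by
                  unfold T5 at ht
                  simp only [mem_insert, mem_singleton] at ht
                  rcases ht with rfl | rfl | rfl | rfl | rfl <;> rfl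
                rw [h5] at this
                rw [mul_one_div]
                exact this
            _ = (T5 p).card * (b * (1 / (p : ℝ) ^ 2)) := by
                rw [Finset.sum_const, nsmul_eq_mul]
            _ ≤ 5 * (b * (1 / (p : ℝ) ^ 2)) := by
                gcongr
                have : (T5 p).card ≤ 5 := by
                  unfold T5
                  exact Finset.card_le_five
                exact_mod_cast this
      _ = 5 * b * ∑ p ∈ PP z, 1 / (p : ℝ) ^ 2 := by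
          rw [Finset.mul_sum]
          apply Finset.sum_congr rfl
          intro p _
          ring
      _ ≤ 5 * b * 1 := by
          gcongr
          exact sum_PP_le z
      _ = 5 * b := by ring
  linarith

end Pool.Agent.W285.GM
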